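import Pool.Agent.UF.Defs
import Pool.Agent.FinP.Eval
import Pool.Agent.FIN.Compl

/-!
# UF, modules A1 and B: completeness of power series rings, evaluation of power series
-/

set_option autoImplicit false

open IsLocalRing

namespace Pool.Agent.UF

/-- Evaluation of power series at elements of the maximal ideal. -/
noncomputable def ev {A B : Type} [CommRing A] [CommRing B] [IsLocalRing B]
    [IsAdicComplete (maximalIdeal B) B] {n : ℕ} (f : A →+* B) (b : Fin n → B)
    (hb : ∀ i, b i ∈ maximalIdeal B) : MvPowerSeries (Fin n) A →+* B :=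
  (FinP.exists_eval f n b hb).choose

theorem ev_C {A B : Type} [CommRing A] [CommRing B] [IsLocalRing B]
    [IsAdicComplete (maximalIdeal B) B] {n : ℕ} (f : A →+* B) (b : Fin n → B)
    (hb : ∀ i, b i ∈ maximalIdeal B) (a : A) : ev f b hb (MvPowerSeries.C a) = f a :=
  congrArg (fun h : A →+* B => h a) (FinP.exists_eval f n b hb).choose_spec.1

theorem ev_X {A B : Type} [CommRing A] [CommRing B] [IsLocalRing B]
    [IsAdicComplete (maximalIdeal B) B] {n : ℕ} (f : A →+* B) (b : Fin n → B)
    (hb : ∀ i, b i ∈ maximalIdeal B) (i : Fin n) : ev f b hb (MvPowerSeries.X i) = b i :=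
  (FinP.exists_eval f n b hb).choose_spec.2 i

/-- uniqueness -/
theorem hom_ext {A B : Type} [CommRing A] [CommRing B] [IsLocalRing B]
    [IsHausdorff (maximalIdeal B) B] {n : ℕ} (g h : MvPowerSeries (Fin n) A →+* B)
    (hC : ∀ a, g (MvPowerSeries.C a) = h (MvPowerSeries.C a))
    (hX : ∀ i, g (MvPowerSeries.X i) = h (MvPowerSeries.X i))
    (hm : ∀ i, g (MvPowerSeries.X i) ∈ maximalIdeal B) : g = h :=
  FinP.mv_hom_ext (maximalIdeal B) n g h (RingHom.ext hC) hX hm

/-- power series with coefficients in a finitely generated ideal -/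
theorem mem_map_C {A : Type} [CommRing A] {n : ℕ} (I : Ideal A) (hI : I.FG)
    (f : MvPowerSeries (Fin n) A) :
    f ∈ I.map (MvPowerSeries.C (σ := Fin n) (R := A)) ↔ ∀ d, MvPowerSeries.coeff d f ∈ I := by
  constructor
  · intro hf d
    have h1 : I.map (MvPowerSeries.C (σ := Fin n) (R := A)) ≤
        RingHom.ker (MvPowerSeries.map (σ := Fin n) (Ideal.Quotient.mk I)) := by
      rw [Ideal.map_le_iff_le_comap]
      intro a ha
      rw [Ideal.mem_comap, RingHom.mem_ker, MvPowerSeries.map_C,
        Ideal.Quotient.eq_zero_iff_mem.2 ha, map_zero]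
    have h2 := h1 hf
    rw [RingHom.mem_ker] at h2
    rw [← Ideal.Quotient.eq_zero_iff_mem, ← MvPowerSeries.coeff_map, h2, map_zero]
  · exact FinP.mem_map_C_of_coeff_mem I hI f

theorem complete_mvPowerSeries (n : ℕ) (A : Type) [CommRing A] [IsLocalRing A] [IsNoetherianRing A]
    [IsAdicComplete (maximalIdeal A) A] :
    IsAdicComplete (maximalIdeal (MvPowerSeries (Fin n) A)) (MvPowerSeries (Fin n) A) :=
  inferInstance

end Pool.Agent.UF
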