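import Pool.Agent.UF.Defs

/-!
# UF, modules A2 and C: quotients of complete local rings, complete Nakayama
-/

set_option autoImplicit false

open IsLocalRing

namespace Pool.Agent.UF

namespace C

/-- smodEq for the ring itself -/
theorem smod_iff {R : Type*} [CommRing R] (I : Ideal R) (n : ℕ) (x y : R) :
    (x ≡ y [SMOD (I ^ n • ⊤ : Submodule R R)]) ↔ x - y ∈ I ^ n := by
  rw [SModEq.sub_mem, smul_eq_mul, Ideal.mul_top]

theorem comap_max {A B : Type*} [CommRing A] [IsLocalRing A] [CommRing B] [IsLocalRing B]
    (f : A →+* B) (hf : Function.Surjective f) :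
    (maximalIdeal A).map f = maximalIdeal B := by
  have h1 : ((maximalIdeal B).comap f).IsMaximal := Ideal.comap_isMaximal_of_surjective f hf
  have h2 : (maximalIdeal B).comap f = maximalIdeal A := IsLocalRing.eq_maximalIdeal h1
  rw [← h2, Ideal.map_comap_of_surjective f hf]

/-- elements of `J • (ι → A)` -/
theorem mem_smul_pi {A : Type*} [CommRing A] {ι : Type*} [Finite ι] (J : Ideal A) (x : ι → A) :
    x ∈ (J • ⊤ : Submodule A (ι → A)) ↔ ∀ i, x i ∈ J := by
  classical
  constructor
  · intro hx i
    refine Submodule.smul_induction_on (p := fun y => y i ∈ J) hx ?_ ?_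
    · intro r hr m _
      rw [Pi.smul_apply, smul_eq_mul]
      exact J.mul_mem_right _ hr
    · intro y z hy hz
      rw [Pi.add_apply]
      exact J.add_mem hy hz
  · intro hx
    cases nonempty_fintype ι
    have h1 : x = ∑ i, x i • (Pi.single i (1 : A) : ι → A) := by
      funext j
      rw [Finset.sum_apply, Finset.sum_eq_single j]
      · simp
      · intro b _ hb
        rw [Pi.smul_apply, Pi.single_eq_of_ne (Ne.symm hb), smul_zero]
      · intro h
        exact absurd (Finset.mem_univ _) h
    rw [h1]
    exact Submodule.sum_mem _ fun i _ => Submodule.smul_mem_smul (hx i) Submodule.mem_top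

theorem precomplete_pi {A : Type*} [CommRing A] (I : Ideal A) [hI : IsPrecomplete I A] (ι : Type*)
    [Finite ι] : IsPrecomplete I (ι → A) := by
  refine ⟨fun f hf => ?_⟩
  have h1 : ∀ i, ∃ L : A, ∀ n, f n i ≡ L [SMOD (I ^ n • ⊤ : Submodule A A)] := by
    intro i
    refine hI.prec (f := fun n => f n i) ?_
    intro m n hmn
    have h2 := hf hmn
    rw [SModEq.sub_mem, mem_smul_pi] at h2
    rw [smod_iff]
    exact h2 i
  choose L hL using h1
  refine ⟨L, fun n => ?_⟩
  rw [SModEq.sub_mem, mem_smul_pi]
  intro i
  exact (smod_iff _ _ _ _).1 (hL i n)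

/-- powers of the maximal ideal lift -/
theorem lift_pow {A B : Type*} [CommRing A] [IsLocalRing A] [CommRing B] [IsLocalRing B]
    (f : A →+* B) (hf : Function.Surjective f) (n : ℕ) (b : B) (hb : b ∈ maximalIdeal B ^ n) :
    ∃ a ∈ maximalIdeal A ^ n, f a = b := by
  rw [← comap_max f hf, ← Ideal.map_pow, Ideal.mem_map_iff_of_surjective f hf] at hb
  exact hb

end C

/-! A2 (quotients) -/
theorem complete_of_surjective {A B : Type} [CommRing A] [IsLocalRing A] [IsNoetherianRing A]
    [IsAdicComplete (maximalIdeal A) A] [CommRing B] [IsLocalRing B] (f : A →+* B)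
    (hf : Function.Surjective f) : IsAdicComplete (maximalIdeal B) B := by
  haveI : IsNoetherianRing B := isNoetherianRing_of_surjective A B f hf
  haveI hH : IsHausdorff (maximalIdeal B) B := inferInstance
  have hP : IsPrecomplete (maximalIdeal B) B := by
    refine ⟨fun b hb => ?_⟩
    obtain ⟨a0, ha0⟩ := hf (b 0)
    have h1 : ∀ n, ∃ a ∈ maximalIdeal A ^ n, f a = b (n + 1) - b n := by
      intro n
      refine C.lift_pow f hf n _ ?_
      have h2 := (C.smod_iff _ _ _ _).1 (hb (Nat.le_succ n))
      rw [← neg_mem_iff, neg_sub] at h2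
      exact h2
    choose d hd hfd using h1
    let g : ℕ → A := fun n => a0 + ∑ i ∈ Finset.range n, d i
    have hg : ∀ n, f (g n) = b n := by
      intro n
      induction n with
      | zero => simp [g, ha0]
      | succ n ih =>
        have h2 : g (n + 1) = g n + d n := by
          simp only [g]
          rw [Finset.sum_range_succ, add_assoc]
        rw [h2, map_add, ih, hfd]
        ring
    obtain ⟨L, hL⟩ := IsPrecomplete.prec (I := maximalIdeal A) (M := A) inferInstance
      (f := g) (by
        intro m n hmn
        rw [C.smod_iff, ← neg_mem_iff, neg_sub]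
        have h2 : g n - g m = ∑ i ∈ Finset.Ico m n, d i := by
          simp only [g]
          rw [Finset.sum_Ico_eq_sub _ hmn]
          ring
        rw [h2]
        refine Ideal.sum_mem _ fun i hi => ?_
        exact Ideal.pow_le_pow_right (Finset.mem_Ico.1 hi).1 (hd i))
    refine ⟨f L, fun n => ?_⟩
    rw [C.smod_iff, ← hg, ← map_sub, ← C.comap_max f hf, ← Ideal.map_pow]
    exact Ideal.mem_map_of_mem f ((C.smod_iff _ _ _ _).1 (hL n))
  exact { toIsHausdorff := hH, toIsPrecomplete := hP }

/-! C (complete Nakayama) -/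
theorem finite_of_fibre {A B : Type} [CommRing A] [IsLocalRing A]
    [IsPrecomplete (maximalIdeal A) A] [CommRing B] [IsLocalRing B] [IsNoetherianRing B]
    (f : A →+* B) (hf : IsLocalHom f) (s : Finset B)
    (h : ∀ b : B, ∃ c : B → A, b - ∑ x ∈ s, f (c x) * x ∈ (maximalIdeal A).map f) :
    f.Finite := by
  classical
  letI := f.toAlgebra
  have hmap : (maximalIdeal A).map f ≤ maximalIdeal B := by
    rw [Ideal.map_le_iff_le_comap]
    intro a ha
    rw [Ideal.mem_comap, mem_maximalIdeal, mem_nonunits_iff]
    intro hu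
    exact (mem_maximalIdeal a).1 ha (hf.map_nonunit a hu)
  have hne : (maximalIdeal A).map f ≠ ⊤ := fun h0 =>
    (Ideal.IsMaximal.ne_top (inferInstance : (maximalIdeal B).IsMaximal)) (top_le_iff.1 (h0 ▸ hmap))
  haveI hH : IsHausdorff ((maximalIdeal A).map f) B := IsHausdorff.of_isLocalRing _ _ hne
  haveI hH' : IsHausdorff (maximalIdeal A) B :=
    (IsHausdorff.map_algebraMap_iff (I := maximalIdeal A) (S := B)).1 hH
  haveI := C.precomplete_pi (maximalIdeal A) {x // x ∈ s}
  let L : ({x // x ∈ s} → A) →ₗ[A] B := Fintype.linearCombination A (fun x : {x // x ∈ s} => (x : B))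
  have hL : Function.Surjective L := by
    apply surjective_of_mkQ_comp_surjective (I := maximalIdeal A)
    intro y
    obtain ⟨b, rfl⟩ := Submodule.Quotient.mk_surjective _ y
    obtain ⟨c, hc⟩ := h b
    refine ⟨fun x => c x, ?_⟩
    rw [LinearMap.comp_apply, Submodule.mkQ_apply, Submodule.Quotient.eq, ← neg_mem_iff, neg_sub,
      Ideal.smul_top_eq_map]
    have h1 : L (fun x => c x) = ∑ x ∈ s, f (c x) * x := by
      rw [Fintype.linearCombination_apply, ← Finset.sum_coe_sort s]
      refine Finset.sum_congr rfl fun x _ => ?_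
      rw [Algebra.smul_def]
      rfl
    rw [h1]
    exact hc
  show Module.Finite A B
  exact Module.Finite.of_surjective L hL

theorem finite_of_param {A B : Type} [CommRing A] [IsLocalRing A]
    [IsPrecomplete (maximalIdeal A) A] [CommRing B] [IsLocalRing B] [IsNoetherianRing B]
    (f : A →+* B) (hf : IsLocalHom f) (hres : ∀ b : B, ∃ a : A, b - f a ∈ maximalIdeal B) (N : ℕ)
    (hN : maximalIdeal B ^ N ≤ (maximalIdeal A).map f) : f.Finite := by
  classical
  -- for every `n` finitely many elements generate `B` modulo the `n`-th power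
  have key : ∀ n : ℕ, ∃ s : Finset B, ∀ b : B, ∃ c : B → A,
      b - ∑ x ∈ s, f (c x) * x ∈ maximalIdeal B ^ n := by
    intro n
    induction n with
    | zero =>
      refine ⟨∅, fun b => ⟨fun _ => 0, ?_⟩⟩
      rw [pow_zero, Ideal.one_eq_top]
      exact Submodule.mem_top
    | succ n ih =>
      obtain ⟨s, hs⟩ := ih
      obtain ⟨t, ht⟩ := (IsNoetherian.noetherian (maximalIdeal B ^ n) : (maximalIdeal B ^ n).FG)
      refine ⟨s ∪ t, fun b => ?_⟩
      obtain ⟨c, hc⟩ := hs b
      have h1 : b - ∑ x ∈ s, f (c x) * x ∈ Ideal.span (t : Set B) := by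
        have h2 : Ideal.span (t : Set B) = maximalIdeal B ^ n := ht
        rw [h2]
        exact hc
      rw [Submodule.mem_span_finset] at h1
      obtain ⟨e, _, he⟩ := h1
      choose r hr using hres
      refine ⟨fun x => (if x ∈ s then c x else 0) + (if x ∈ t then r (e x) else 0), ?_⟩
      have h3 : ∑ x ∈ s ∪ t, f ((if x ∈ s then c x else 0) + (if x ∈ t then r (e x) else 0)) * x =
          ∑ x ∈ s, f (c x) * x + ∑ x ∈ t, f (r (e x)) * x := by
        have h4 : ∀ x ∈ s ∪ t,
            f ((if x ∈ s then c x else 0) + (if x ∈ t then r (e x) else 0)) * x =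
            (if x ∈ s then f (c x) * x else 0) + (if x ∈ t then f (r (e x)) * x else 0) := by
          intro x _
          rw [map_add, add_mul]
          congr 1
          · split_ifs
            · rfl
            · rw [map_zero, zero_mul]
          · split_ifs
            · rfl
            · rw [map_zero, zero_mul]
        rw [Finset.sum_congr rfl h4, Finset.sum_add_distrib, ← Finset.sum_filter,
          ← Finset.sum_filter]
        congr 1
        · refine Finset.sum_congr ?_ fun _ _ => rfl
          ext x
          simp only [Finset.mem_filter, Finset.mem_union]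
          tauto
        · refine Finset.sum_congr ?_ fun _ _ => rfl
          ext x
          simp only [Finset.mem_filter, Finset.mem_union]
          tauto
      rw [h3]
      have h5 : b - (∑ x ∈ s, f (c x) * x + ∑ x ∈ t, f (r (e x)) * x) =
          ∑ x ∈ t, (e x - f (r (e x))) * x := by
        simp only [sub_mul, Finset.sum_sub_distrib]
        have h6 : ∑ x ∈ t, e x * x = b - ∑ x ∈ s, f (c x) * x := by
          rw [← he]
          rfl
        rw [h6]
        ring
      rw [h5, pow_succ']
      refine Ideal.sum_mem _ fun x hx => Ideal.mul_mem_mul (hr _) ?_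
      have h7 : Ideal.span (t : Set B) = maximalIdeal B ^ n := ht
      rw [← h7]
      exact Ideal.subset_span hx
  obtain ⟨s, hs⟩ := key N
  refine finite_of_fibre f hf s fun b => ?_
  obtain ⟨c, hc⟩ := hs b
  exact ⟨c, hN hc⟩

end Pool.Agent.UF
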