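import Pool.Agent.UF.G0

/-!
# UF, module D: parameters and dimensions
-/

set_option autoImplicit false

open IsLocalRing

namespace Pool.Agent.UF

namespace D

/-- an integral extension does not increase the dimension -/
theorem dim_le_of_integral {A B : Type} [CommRing A] [CommRing B] (f : A →+* B)
    (hf : f.IsIntegral) : ringKrullDim B ≤ ringKrullDim A := by
  refine Order.krullDim_le_of_strictMono (PrimeSpectrum.comap f) ?_
  intro p q hpq
  have h1 : p.asIdeal < q.asIdeal := hpq
  obtain ⟨x, hxq, hxp⟩ := SetLike.exists_of_lt h1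
  obtain ⟨P, hP, hPx⟩ := hf x
  have h2 := Ideal.comap_lt_comap_of_root_mem_sdiff (f := f) (I := p.asIdeal) (J := q.asIdeal)
    h1.le (r := x) ⟨hxq, hxp⟩ (p := P) (Polynomial.Monic.ne_zero (hP.map _))
    (by rw [hPx]; exact zero_mem _)
  exact h2

theorem span_X_eq {k : Type} [Field k] {n : ℕ} :
    maximalIdeal (MvPowerSeries (Fin n) k) =
      Ideal.span (Set.range (MvPowerSeries.X (R := k) (σ := Fin n))) := by
  apply le_antisymm
  · intro F hF
    have h1 : MvPowerSeries.constantCoeff F = 0 := by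
      by_contra h
      rw [IsLocalRing.mem_maximalIdeal, mem_nonunits_iff] at hF
      exact hF (MvPowerSeries.isUnit_iff_constantCoeff.2 (isUnit_iff_ne_zero.2 h))
    have h2 := G.sub_C_mem F
    rwa [h1, map_zero, sub_zero] at h2
  · rw [Ideal.span_le]
    rintro _ ⟨j, rfl⟩
    rw [SetLike.mem_coe, IsLocalRing.mem_maximalIdeal, mem_nonunits_iff,
      MvPowerSeries.isUnit_iff_constantCoeff, MvPowerSeries.constantCoeff_X]
    exact not_isUnit_zero

theorem dim_ps {k : Type} [Field k] (n : ℕ) : ringKrullDim (MvPowerSeries (Fin n) k) ≤ n := by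
  refine (ringKrullDim_le_spanFinrank_maximalIdeal (MvPowerSeries (Fin n) k)).trans ?_
  have h1 : (maximalIdeal (MvPowerSeries (Fin n) k)).spanFinrank ≤ n := by
    rw [span_X_eq]
    refine (Submodule.spanFinrank_span_le_ncard_of_finite (Set.finite_range _)).trans ?_
    have := Set.ncard_image_le (f := (MvPowerSeries.X (R := k) (σ := Fin n)))
      (Set.finite_univ)
    rw [Set.image_univ, Set.ncard_univ, Nat.card_eq_fintype_card, Fintype.card_fin] at this
    exact this
  exact_mod_cast h1

end D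

theorem exists_param {B : Type} [CommRing B] [IsLocalRing B] [IsNoetherianRing B] (J : Ideal B)
    (hJ : J ≠ ⊤) (e : ℕ) (h : ringKrullDim (B ⧸ J) ≤ e) :
    ∃ x : Fin e → B, (∀ i, x i ∈ maximalIdeal B) ∧
      ∃ N : ℕ, maximalIdeal B ^ N ≤ J ⊔ Ideal.span (Set.range x) := by
  classical
  have : Nontrivial (B ⧸ J) := Ideal.Quotient.nontrivial_iff.2 hJ
  have : IsLocalRing (B ⧸ J) :=
    IsLocalRing.of_surjective' (Ideal.Quotient.mk J) Ideal.Quotient.mk_surjective
  obtain ⟨s, hs, hcard⟩ :=
    Ideal.exists_finset_card_eq_height_of_isNoetherianRing (maximalIdeal (B ⧸ J))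
  have hc : s.card ≤ e := by
    have h1 : ((s.card : ℕ∞) : WithBot ℕ∞) ≤ ((e : ℕ∞) : WithBot ℕ∞) := by
      rw [hcard]
      exact le_of_eq_of_le IsLocalRing.maximalIdeal_height_eq_ringKrullDim h
    exact_mod_cast h1
  obtain ⟨g, hg⟩ : ∃ g : Fin e → B ⧸ J, (∀ i, g i ∈ maximalIdeal (B ⧸ J)) ∧
      (s : Set (B ⧸ J)) ⊆ Set.range g := by
    let L := s.toList
    have hL : L.length ≤ e := by rw [Finset.length_toList]; exact hc
    refine ⟨fun i => L.getD i 0, ?_, ?_⟩
    · intro i
      by_cases hi : (i : ℕ) < L.length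
      · have h1 : L.getD i 0 ∈ s := by
          rw [List.getD_eq_getElem _ _ hi]
          exact Finset.mem_toList.1 (List.getElem_mem hi)
        exact hs.1.2 (Ideal.subset_span h1)
      · have h1 : L.getD (i : ℕ) 0 = 0 := List.getD_eq_default _ _ (not_lt.1 hi)
        simp only [h1]
        exact zero_mem _
    · intro x hx
      have h1 : x ∈ L := Finset.mem_toList.2 hx
      obtain ⟨n, hn, rfl⟩ := List.getElem_of_mem h1
      exact ⟨⟨n, lt_of_lt_of_le hn hL⟩, List.getD_eq_getElem _ _ hn⟩
  choose x hx using fun i => Ideal.Quotient.mk_surjective (g i)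
  have hloc : IsLocalHom (Ideal.Quotient.mk J) :=
    IsLocalHom.of_surjective (Ideal.Quotient.mk J) Ideal.Quotient.mk_surjective
  refine ⟨x, ?_, ?_⟩
  · intro i
    rw [IsLocalRing.mem_maximalIdeal, mem_nonunits_iff]
    intro h1
    have h2 := h1.map (Ideal.Quotient.mk J)
    rw [hx i] at h2
    exact (IsLocalRing.mem_maximalIdeal _).1 (hg.1 i) h2
  · -- the radical
    have hrad : maximalIdeal B ≤ (J ⊔ Ideal.span (Set.range x)).radical := by
      rw [Ideal.radical_eq_sInf]
      refine le_sInf ?_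
      rintro p ⟨hp, hpp⟩
      have h1 : J ≤ p := le_sup_left.trans hp
      have h2 : (p.map (Ideal.Quotient.mk J)).comap (Ideal.Quotient.mk J) = p := by
        rw [Ideal.comap_map_of_surjective _ Ideal.Quotient.mk_surjective]
        rw [← RingHom.ker_eq_comap_bot, Ideal.mk_ker]
        exact sup_eq_left.2 h1
      have h3 : (p.map (Ideal.Quotient.mk J)).IsPrime :=
        Ideal.map_isPrime_of_surjective Ideal.Quotient.mk_surjective (by rwa [Ideal.mk_ker])
      have h4 : Ideal.span (s : Set (B ⧸ J)) ≤ p.map (Ideal.Quotient.mk J) := by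
        rw [Ideal.span_le]
        intro y hy
        obtain ⟨i, rfl⟩ := hg.2 hy
        rw [SetLike.mem_coe, ← hx i]
        exact Ideal.mem_map_of_mem _ (hp (Ideal.mem_sup_right (Ideal.subset_span ⟨i, rfl⟩)))
      have h5 : maximalIdeal (B ⧸ J) ≤ p.map (Ideal.Quotient.mk J) :=
        hs.2 ⟨h3, h4⟩ (IsLocalRing.le_maximalIdeal h3.ne_top)
      rw [← h2]
      intro b hb
      rw [Ideal.mem_comap]
      apply h5
      rw [IsLocalRing.mem_maximalIdeal, mem_nonunits_iff] at hb ⊢
      intro h6
      exact hb (hloc.map_nonunit _ h6)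
    exact Ideal.exists_pow_le_of_le_radical_of_fg hrad
      (IsNoetherian.noetherian (maximalIdeal B))

theorem dim_drop {k C : Type} [Field k] [CommRing C] {e : ℕ}
    (g : MvPowerSeries (Fin (e + 1)) k →+* C) (hg : g.Finite) (f : MvPowerSeries (Fin (e + 1)) k)
    (hf : f ≠ 0) : ringKrullDim (C ⧸ Ideal.span {g f}) ≤ e := by
  let A := MvPowerSeries (Fin (e + 1)) k
  have h1 : ringKrullDim (A ⧸ Ideal.span {f}) + 1 ≤ ringKrullDim A :=
    ringKrullDim_quotient_succ_le_of_nonZeroDivisor (mem_nonZeroDivisors_of_ne_zero hf)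
  have h2 : ringKrullDim (A ⧸ Ideal.span {f}) ≤ e := by
    have h3 := h1.trans (D.dim_ps (k := k) (e + 1))
    have h4 : ringKrullDim (A ⧸ Ideal.span {f}) + 1 ≤ (e : WithBot ℕ∞) + 1 := by
      refine h3.trans (le_of_eq ?_)
      push_cast
      rfl
    exact (ENat.WithBot.add_le_add_one_right_iff).1 h4
  let g' : (A ⧸ Ideal.span {f}) →+* C ⧸ Ideal.span {g f} :=
    Ideal.quotientMap (Ideal.span {g f}) g (by
      rw [Ideal.span_le]
      rintro _ rfl
      exact Ideal.subset_span rfl)
  have h5 : g'.IsIntegral := by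
    have h6 : ((Ideal.Quotient.mk (Ideal.span {g f})).comp g).IsIntegral :=
      (RingHom.Finite.to_isIntegral hg).trans _ _
        (RingHom.isIntegral_of_surjective _ Ideal.Quotient.mk_surjective)
    intro x
    obtain ⟨P, hP, hPx⟩ := h6 x
    refine ⟨P.map (Ideal.Quotient.mk (Ideal.span {f})), hP.map _, ?_⟩
    rw [Polynomial.eval₂_map]
    exact hPx
  exact (D.dim_le_of_integral g' h5).trans h2

end Pool.Agent.UF
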