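import Mathlib

/-!
# UF: uniform finiteness over complete local rings

Definitions.  `W` is a complete Noetherian local ring with finite residue field, `O` a complete
valuation domain, integral over `W` with the same residue field (a test ring).
-/

set_option autoImplicit false

open IsLocalRing

namespace Pool.Agent.UF

/-- `O` is a test ring over `W`. -/
structure IsTest {W O : Type} [CommRing W] [IsLocalRing W] [CommRing O] [IsLocalRing O]
    (ω : W →+* O) : Prop where
  dom : IsDomain O
  val : ∀ a b : O, a ∣ b ∨ b ∣ a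
  cpl : IsAdicComplete (maximalIdeal O) O
  loc : IsLocalHom ω
  res : ∀ x : O, ∃ w : W, x - ω w ∈ maximalIdeal O
  dist : ∀ v ∈ maximalIdeal O, ∃ P : Polynomial W, P.Monic ∧
    (∀ n < P.natDegree, P.coeff n ∈ maximalIdeal W) ∧ P.eval₂ ω v = 0

/-- every element of `A` is congruent to an element of `W` -/
def Res {W A : Type} [CommRing W] [CommRing A] [IsLocalRing A] (i : W →+* A) : Prop :=
  ∀ x : A, ∃ w : W, x - i w ∈ maximalIdeal A

/-- `z` is an isolated point of the fibre of `φ : T → R` over `t`. -/
def Isol {T R O : Type} [CommRing T] [CommRing R] [CommRing O] (φ : T →+* R) (t : T →+* O)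
    (z : R →+* O) : Prop :=
  z.comp φ = t ∧ RingHom.ker z ∈ ((RingHom.ker t).map φ).minimalPrimes

/-- There is a uniform bound for the number of the isolated points over the points which satisfy
`p`. -/
def Bdd {W T R : Type} [CommRing W] [IsLocalRing W] [CommRing T] [CommRing R] (i : W →+* T)
    (φ : T →+* R) (I : Ideal T) (M : ℕ) : Prop :=
  ∀ (O : Type) [CommRing O] [IsLocalRing O] (ω : W →+* O), IsTest ω → ∀ t : T →+* O,
    t.comp i = ω → I ≤ RingHom.ker t → {z : R →+* O | Isol φ t z}.encard ≤ M

/-- The theorem. -/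
def UniformFiniteness : Prop :=
  ∀ (W T R : Type) [CommRing W] [IsLocalRing W] [IsNoetherianRing W]
    [IsAdicComplete (maximalIdeal W) W] [Finite (ResidueField W)]
    [CommRing T] [IsLocalRing T] [IsNoetherianRing T] [IsAdicComplete (maximalIdeal T) T]
    [CommRing R] [IsLocalRing R] [IsNoetherianRing R] [IsAdicComplete (maximalIdeal R) R]
    (i : W →+* T) (φ : T →+* R), IsLocalHom i → IsLocalHom φ → Res i → Res (φ.comp i) →
    ∃ M : ℕ, Bdd i φ ⊥ M

end Pool.Agent.UF
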