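import Pool.Agent.UF.Defs

/-!
# UF, E: generic freeness and the zeros of `c`
-/

set_option autoImplicit false

open IsLocalRing

namespace Pool.Agent.UF

namespace E

/-- for `x` in a minimal prime `n` over `J` there is `s ∉ n` with `s * x ^ k ∈ J`. -/
theorem exists_mul_pow_mem {R : Type} [CommRing R] {J n : Ideal R} (hn : n ∈ J.minimalPrimes)
    {x : R} (hx : x ∈ n) : ∃ s, s ∉ n ∧ ∃ k : ℕ, s * x ^ k ∈ J := by
  by_contra hcon
  push Not at hcon
  have hnp : n.IsPrime := hn.1.1
  have hdisj : Disjoint (J : Set R) (n.primeCompl ⊔ Submonoid.powers x : Submonoid R) := by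
    rw [Set.disjoint_left]
    intro y hyJ hyM
    obtain ⟨s, hs, z, hz, rfl⟩ := Submonoid.mem_sup.mp hyM
    obtain ⟨k, rfl⟩ := hz
    exact hcon s hs k hyJ
  obtain ⟨Q, hQp, hJQ, hQd⟩ := Ideal.exists_le_prime_disjoint J _ hdisj
  have hQn : Q ≤ n := by
    intro y hy
    by_contra hyn
    exact (Set.disjoint_left.mp hQd) hy
      ((le_sup_left : n.primeCompl ≤ n.primeCompl ⊔ Submonoid.powers x) hyn)
  have hnQ : n ≤ Q := hn.2 ⟨hQp, hJQ⟩ hQn
  exact (Set.disjoint_left.mp hQd) (hnQ hx)
    ((le_sup_right : Submonoid.powers x ≤ n.primeCompl ⊔ Submonoid.powers x)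
      (Submonoid.mem_powers x))

/-- power series with coefficients in a finitely generated ideal. -/
theorem mem_map_C_of_coeff {A : Type} [CommRing A] {n : ℕ} (I : Ideal A) (hI : I.FG)
    (f : MvPowerSeries (Fin n) A) (h : ∀ d, MvPowerSeries.coeff d f ∈ I) :
    f ∈ I.map (MvPowerSeries.C (σ := Fin n) (R := A)) := by
  classical
  obtain ⟨k, g, hg⟩ := Submodule.fg_iff_exists_fin_generating_family.mp hI
  have hg' : Ideal.span (Set.range g) = I := hg
  have h1 : ∀ d, ∃ c : Fin k → A, ∑ i, c i * g i = MvPowerSeries.coeff d f := by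
    intro d
    have := h d
    rw [← hg'] at this
    exact Ideal.mem_span_range_iff_exists_fun.mp this
  choose c hc using h1
  let F : Fin k → MvPowerSeries (Fin n) A := fun i d => c d i
  have hF : ∀ i d, MvPowerSeries.coeff d (F i) = c d i := fun _ _ => rfl
  have h2 : f = ∑ i, F i * MvPowerSeries.C (g i) := by
    ext d
    rw [map_sum, ← hc d]
    refine Finset.sum_congr rfl fun i _ => ?_
    rw [MvPowerSeries.coeff_mul_C, hF]
  rw [h2]
  refine Ideal.sum_mem _ fun i _ => Ideal.mul_mem_left _ _ (Ideal.mem_map_of_mem _ ?_)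
  rw [← hg']
  exact Ideal.subset_span ⟨i, rfl⟩

end E

/-- generic freeness -/
theorem generic_free {S R : Type} [CommRing S] [IsDomain S] [CommRing R] (φ : S →+* R)
    (hφ : φ.Finite) : ∃ c : S, c ≠ 0 ∧ ∃ (q : ℕ) (r : Fin q → R),
      (∀ s : Fin q → S, ∑ i, φ (s i) * r i = 0 → s = 0) ∧
      ∀ b : R, ∃ s : Fin q → S, φ c * b = ∑ i, φ (s i) * r i := by
  classical
  let := φ.toAlgebra
  have hsm : ∀ (a : S) (b : R), a • b = φ a * b := fun a b => Algebra.smul_def a b
  have : Module.Finite S R := hφ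
  obtain ⟨G, hG⟩ := Module.Finite.fg_top (R := S) (M := R)
  -- a maximal linearly independent subset of `G`
  have hex : ∃ T ⊆ G, LinearIndepOn S (id : R → R) (T : Set R) ∧
      ∀ T' ⊆ G, LinearIndepOn S (id : R → R) (T' : Set R) → T'.card ≤ T.card := by
    obtain ⟨T, hT, hmax⟩ := Finset.exists_max_image
      (Finset.filter (fun T : Finset R => LinearIndepOn S (id : R → R) (T : Set R)) G.powerset)
      Finset.card ⟨∅, by simp⟩
    rw [Finset.mem_filter, Finset.mem_powerset] at hT
    exact ⟨T, hT.1, hT.2, fun T' h1 h2 => hmax T' (by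
      rw [Finset.mem_filter, Finset.mem_powerset]; exact ⟨h1, h2⟩)⟩
  obtain ⟨T, hTG, hTi, hTm⟩ := hex
  -- every generator is in the span up to a nonzero factor
  have hgen : ∀ b ∈ G, ∃ c : S, c ≠ 0 ∧ c • b ∈ Submodule.span S (T : Set R) := by
    intro b hb
    by_cases hbT : b ∈ T
    · exact ⟨1, one_ne_zero, by rw [one_smul]; exact Submodule.subset_span hbT⟩
    have hnot : ¬ LinearIndepOn S (id : R → R) ((insert b T : Finset R) : Set R) := by
      intro h
      have := hTm (insert b T) (Finset.insert_subset hb hTG) h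
      rw [Finset.card_insert_of_notMem hbT] at this
      omega
    rw [linearIndepOn_finset_iff] at hnot
    push Not at hnot
    obtain ⟨f, hf, i, hi, hfi⟩ := hnot
    rw [Finset.sum_insert hbT] at hf
    have hfb : f b ≠ 0 := by
      intro h0
      rw [h0, zero_smul, zero_add] at hf
      have h1 := linearIndepOn_finset_iff.mp hTi f hf
      rcases Finset.mem_insert.mp hi with rfl | hiT
      · exact hfi h0
      · exact hfi (h1 i hiT)
    refine ⟨f b, hfb, ?_⟩
    have : f b • b = - ∑ x ∈ T, f x • (id x : R) := eq_neg_of_add_eq_zero_left hf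
    rw [this]
    exact Submodule.neg_mem _ (Submodule.sum_mem _ fun x hx =>
      Submodule.smul_mem _ _ (Submodule.subset_span hx))
  choose! c hc0 hc using hgen
  refine ⟨∏ b ∈ G, c b, Finset.prod_ne_zero_iff.mpr hc0, T.card,
    fun i => (T.equivFin.symm i : R), ?_, ?_⟩
  · intro s hs
    have h1 := linearIndepOn_finset_iff.mp hTi (fun x => if h : x ∈ T then s (T.equivFin ⟨x, h⟩) else 0)
      (by
        rw [← Finset.sum_coe_sort T, ← hs]
        rw [← Equiv.sum_comp T.equivFin.symm]
        refine Finset.sum_congr rfl fun i _ => ?_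
        rw [dif_pos (T.equivFin.symm i).2, hsm]
        simp)
    funext i
    have := h1 _ (T.equivFin.symm i).2
    rw [dif_pos (T.equivFin.symm i).2] at this
    simpa using this
  · have hall : ∀ b : R, (∏ b ∈ G, c b) • b ∈ Submodule.span S (T : Set R) := by
      intro b
      have hb : b ∈ Submodule.span S (G : Set R) := by rw [hG]; trivial
      refine Submodule.span_induction (p := fun x _ => (∏ b ∈ G, c b) • x ∈
        Submodule.span S (T : Set R)) ?_ ?_ ?_ ?_ hb
      · intro x hx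
        rw [← Finset.prod_erase_mul G c hx, mul_smul]
        exact Submodule.smul_mem _ _ (hc x hx)
      · rw [smul_zero]; exact Submodule.zero_mem _
      · intro x y _ _ hx hy
        rw [smul_add]; exact Submodule.add_mem _ hx hy
      · intro a x _ hx
        rw [smul_comm]; exact Submodule.smul_mem _ _ hx
    intro b
    have hb := hall b
    have hrange : (T : Set R) = Set.range (fun i : Fin T.card => (T.equivFin.symm i : R)) := by
      ext x
      constructor
      · intro hx
        exact ⟨T.equivFin ⟨x, hx⟩, by simp⟩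
      · rintro ⟨i, rfl⟩
        exact (T.equivFin.symm i).2
    rw [hrange, Submodule.mem_span_range_iff_exists_fun] at hb
    obtain ⟨s, hs⟩ := hb
    refine ⟨s, ?_⟩
    rw [← hsm, ← hs]
    exact Finset.sum_congr rfl fun i _ => hsm _ _

namespace E

theorem eval₂_X_ne_zero {W O : Type} [CommRing W] [CommRing O] [Nontrivial O] (ω : W →+* O)
    (P : Polynomial W) (hP : P.Monic) (e : ℕ) :
    P.eval₂ ((MvPowerSeries.C (σ := Fin (e + 1)) (R := O)).comp ω) (MvPowerSeries.X 0) ≠ 0 := by
  classical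
  intro h
  have h1 := congrArg (MvPowerSeries.coeff (Finsupp.single (0 : Fin (e + 1)) P.natDegree)) h
  rw [Polynomial.eval₂_eq_sum_range, map_sum, map_zero] at h1
  rw [Finset.sum_eq_single P.natDegree] at h1
  · rw [RingHom.comp_apply, MvPowerSeries.coeff_C_mul, MvPowerSeries.coeff_X_pow, if_pos rfl,
      mul_one, hP.coeff_natDegree, map_one] at h1
    exact one_ne_zero h1
  · intro k _ hk
    rw [RingHom.comp_apply, MvPowerSeries.coeff_C_mul, MvPowerSeries.coeff_X_pow, if_neg,
      mul_zero]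
    intro hsk
    exact hk (Finsupp.single_injective _ hsk).symm
  · intro hn
    exact absurd (Finset.mem_range.mpr (Nat.lt_succ_self _)) hn

end E

/-- the isolated points lie over `c = 0` -/
theorem isolated_zero {W T R O : Type} [CommRing W] [IsLocalRing W] [CommRing T] [IsLocalRing T]
    [IsNoetherianRing T] [IsDomain T] [CommRing R] [CommRing O] [IsLocalRing O] (i : W →+* T)
    (e : ℕ) (ψ : MvPowerSeries (Fin (e + 1)) T →+* R) (c : MvPowerSeries (Fin (e + 1)) T) {q : ℕ}
    (r : Fin q → R) (h1 : ∀ s : Fin q → MvPowerSeries (Fin (e + 1)) T,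
      ∑ j, ψ (s j) * r j = 0 → s = 0)
    (h2 : ∀ b : R, ∃ s : Fin q → MvPowerSeries (Fin (e + 1)) T, ψ c * b = ∑ j, ψ (s j) * r j)
    (ω : W →+* O) (hω : IsTest ω) (t : T →+* O) (ht : t.comp i = ω) (z : R →+* O)
    (hX : z (ψ (MvPowerSeries.X 0)) ∈ maximalIdeal O)
    (hz : Isol (ψ.comp MvPowerSeries.C) t z) : z (ψ c) = 0 := by
  classical
  have hdom : IsDomain O := hω.dom
  obtain ⟨P, hPm, -, hP0⟩ := hω.dist _ hX
  have hzt : ∀ a : T, z (ψ (MvPowerSeries.C a)) = t a := fun a => RingHom.congr_fun hz.1 a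
  set d : MvPowerSeries (Fin (e + 1)) T :=
    P.eval₂ ((MvPowerSeries.C (σ := Fin (e + 1)) (R := T)).comp i) (MvPowerSeries.X 0) with hd
  have hzd : z (ψ d) = 0 := by
    have h3 : (z.comp ψ) d = P.eval₂ ω (z (ψ (MvPowerSeries.X 0))) := by
      rw [hd, Polynomial.hom_eval₂]
      congr 1
      ext w
      show z (ψ (MvPowerSeries.C (i w))) = ω w
      rw [hzt, ← ht]; rfl
    show (z.comp ψ) d = 0
    rw [h3, hP0]
  have hmapd : MvPowerSeries.map (σ := Fin (e + 1)) t d ≠ 0 := by
    have h3 : MvPowerSeries.map (σ := Fin (e + 1)) t d =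
        P.eval₂ ((MvPowerSeries.C (σ := Fin (e + 1)) (R := O)).comp ω) (MvPowerSeries.X 0) := by
      rw [hd, Polynomial.hom_eval₂, MvPowerSeries.map_X]
      congr 1
      ext w : 1
      show MvPowerSeries.map (σ := Fin (e + 1)) t (MvPowerSeries.C (i w)) = MvPowerSeries.C (ω w)
      rw [MvPowerSeries.map_C, ← ht]; rfl
    rw [h3]
    exact E.eval₂_X_ne_zero ω P hPm e
  set Pt : Ideal (MvPowerSeries (Fin (e + 1)) T) :=
    RingHom.ker (MvPowerSeries.map (σ := Fin (e + 1)) t) with hPt
  have : IsDomain (MvPowerSeries (Fin (e + 1)) O) := NoZeroDivisors.to_isDomain _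
  have hPtp : Pt.IsPrime := RingHom.ker_isPrime _
  set K : Ideal (MvPowerSeries (Fin (e + 1)) T) :=
    (RingHom.ker t).map (MvPowerSeries.C (σ := Fin (e + 1)) (R := T)) with hK
  have hKPt : K ≤ Pt := by
    rw [hK, Ideal.map_le_iff_le_comap]
    intro a ha
    rw [Ideal.mem_comap, hPt, RingHom.mem_ker, MvPowerSeries.map_C, (RingHom.mem_ker).mp ha,
      map_zero]
  have hPtK : ∀ f ∈ Pt, z (ψ f) = 0 := by
    intro f hf
    have h3 : f ∈ K := by
      refine E.mem_map_C_of_coeff _ (IsNoetherian.noetherian _) f fun n => ?_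
      rw [RingHom.mem_ker, ← MvPowerSeries.coeff_map]
      rw [hPt, RingHom.mem_ker] at hf
      rw [hf, map_zero]
    have h4 : K ≤ RingHom.ker (z.comp ψ) := by
      rw [hK, Ideal.map_le_iff_le_comap]
      intro a ha
      rw [Ideal.mem_comap, RingHom.mem_ker]
      show z (ψ (MvPowerSeries.C a)) = 0
      rw [hzt, (RingHom.mem_ker).mp ha]
    exact h4 h3
  obtain ⟨s, hs, k, hk⟩ := E.exists_mul_pow_mem hz.2 (x := ψ d) hzd
  have hA : ∀ y ∈ (RingHom.ker t).map (ψ.comp (MvPowerSeries.C (σ := Fin (e + 1)) (R := T))),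
      ∀ b : R, ∃ f : Fin q → MvPowerSeries (Fin (e + 1)) T, (∀ j, f j ∈ K) ∧
        ψ c * (b * y) = ∑ j, ψ (f j) * r j := by
    intro y hy
    refine Submodule.span_induction (p := fun y _ => ∀ b : R,
      ∃ f : Fin q → MvPowerSeries (Fin (e + 1)) T, (∀ j, f j ∈ K) ∧
        ψ c * (b * y) = ∑ j, ψ (f j) * r j) ?_ ?_ ?_ ?_ hy
    · rintro _ ⟨a, ha, rfl⟩ b
      obtain ⟨f, hf⟩ := h2 b
      refine ⟨fun j => MvPowerSeries.C a * f j, fun j => Ideal.mul_mem_right _ _
        (Ideal.mem_map_of_mem _ ha), ?_⟩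
      calc ψ c * (b * (ψ.comp MvPowerSeries.C) a)
          = ψ (MvPowerSeries.C a) * (ψ c * b) := by rw [RingHom.comp_apply]; ring
        _ = _ := by
          rw [hf, Finset.mul_sum]
          exact Finset.sum_congr rfl fun j _ => by rw [map_mul]; ring
    · intro b
      exact ⟨0, fun j => K.zero_mem, by simp⟩
    · intro y1 y2 _ _ hy1 hy2 b
      obtain ⟨f1, hf1, e1⟩ := hy1 b
      obtain ⟨f2, hf2, e2⟩ := hy2 b
      refine ⟨f1 + f2, fun j => K.add_mem (hf1 j) (hf2 j), ?_⟩
      rw [mul_add, mul_add, e1, e2, ← Finset.sum_add_distrib]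
      exact Finset.sum_congr rfl fun j _ => by rw [Pi.add_apply, map_add, add_mul]
    · intro a y _ hy b
      obtain ⟨f, hf, e1⟩ := hy (b * a)
      refine ⟨f, hf, ?_⟩
      rw [← e1, smul_eq_mul]; ring
  obtain ⟨f, hfK, hf⟩ := hA _ hk 1
  obtain ⟨g, hg⟩ := h2 s
  have hfg : ∀ j, g j * d ^ k = f j := by
    have h3 := h1 (fun j => g j * d ^ k - f j) (by
      have h4 : ∑ j, ψ (g j * d ^ k) * r j = ∑ j, ψ (f j) * r j := by
        rw [← hf]
        calc ∑ j, ψ (g j * d ^ k) * r j = (∑ j, ψ (g j) * r j) * ψ d ^ k := by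
              rw [Finset.sum_mul]
              exact Finset.sum_congr rfl fun j _ => by rw [map_mul, map_pow]; ring
          _ = _ := by rw [← hg]; ring
      rw [← sub_eq_zero, ← Finset.sum_sub_distrib] at h4
      rw [← h4]
      exact Finset.sum_congr rfl fun j _ => by rw [map_sub, sub_mul])
    intro j
    exact sub_eq_zero.mp (congrFun h3 j)
  have hgP : ∀ j, z (ψ (g j)) = 0 := by
    intro j
    apply hPtK
    have h3 : g j * d ^ k ∈ Pt := by rw [hfg j]; exact hKPt (hfK j)
    rcases hPtp.mem_or_mem h3 with h4 | h4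
    · exact h4
    · exact absurd (hPtp.mem_of_pow_mem _ h4) hmapd
  have hfin : z (ψ c) * z s = 0 := by
    rw [← map_mul, hg, map_sum]
    exact Finset.sum_eq_zero fun j _ => by rw [map_mul, hgP, zero_mul]
  rcases mul_eq_zero.mp hfin with h3 | h3
  · exact h3
  · exact absurd h3 hs

end Pool.Agent.UF
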