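import Pool.Agent.UF.Defs
import Pool.Agent.FinP.Zero
import Pool.Agent.FIN.C

/-!
# UF, module F: content, quotients, the base case
-/

set_option autoImplicit false

open IsLocalRing

namespace Pool.Agent.UF

theorem content {T : Type} [CommRing T] [IsNoetherianRing T] {n : ℕ}
    (c : MvPowerSeries (Fin n) T) : ∃ (s : ℕ) (m : Fin s → (Fin n →₀ ℕ))
      (d : Fin s → MvPowerSeries (Fin n) T),
      c = ∑ j, MvPowerSeries.C (MvPowerSeries.coeff (m j) c) * d j ∧
      ∀ i j, MvPowerSeries.coeff (m i) (d j) = if i = j then 1 else 0 := by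
  classical
  obtain ⟨Δ, G, h1, h2⟩ := FIN.thm_C T n c
  refine ⟨Δ.card, fun j => (Δ.equivFin.symm j : Fin n →₀ ℕ),
    fun j => G (Δ.equivFin.symm j : Fin n →₀ ℕ), ?_, ?_⟩
  · conv_lhs => rw [h1]
    rw [← Finset.sum_coe_sort Δ]
    exact (Equiv.sum_comp Δ.equivFin.symm
      (fun x : Δ => MvPowerSeries.C (MvPowerSeries.coeff (x : Fin n →₀ ℕ) c) * G x)).symm
  · intro i j
    rw [h2 _ (Δ.equivFin.symm j).2 _ (Δ.equivFin.symm i).2]
    by_cases h : i = j
    · subst h
      simp
    · rw [if_neg h, if_neg]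
      intro h3
      exact h (Δ.equivFin.symm.injective (Subtype.ext h3)).symm

theorem isol_quotient {T R R' O : Type} [CommRing T] [CommRing R] [CommRing R'] [CommRing O]
    (φ : T →+* R) (t : T →+* O) (π : R →+* R') (hπ : Function.Surjective π) (z' : R' →+* O)
    (hz : Isol φ t (z'.comp π)) : Isol (π.comp φ) t z' := by
  obtain ⟨h1, ⟨h2, h3⟩, h4⟩ := hz
  have hker : (RingHom.ker z').comap π = RingHom.ker (z'.comp π) := rfl
  refine ⟨by rw [← h1]; rfl, ⟨⟨?_, ?_⟩, ?_⟩⟩
  · constructor
    · intro h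
      apply h2.ne_top
      rw [← hker, h, Ideal.comap_top]
    · intro x y hxy
      obtain ⟨a, rfl⟩ := hπ x
      obtain ⟨b, rfl⟩ := hπ y
      rw [← map_mul] at hxy
      exact h2.mem_or_mem hxy
  · rw [Ideal.map_le_iff_le_comap]
    intro a ha
    exact h3 (Ideal.mem_map_of_mem _ ha)
  · rintro q ⟨hq, hq1⟩ hq2 x hx
    obtain ⟨a, rfl⟩ := hπ x
    refine h4 (y := q.comap π) ⟨hq.comap π, ?_⟩ ?_ hx
    · rw [Ideal.map_le_iff_le_comap]
      intro b hb
      exact hq1 (Ideal.mem_map_of_mem (π.comp φ) hb)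
    · intro b hb
      exact hq2 hb

/-- the base ring may be replaced by a quotient -/
theorem isol_base {T D R O : Type} [CommRing T] [CommRing D] [CommRing R] [CommRing O]
    (σ : T →+* D) (hσ : Function.Surjective σ) (φ : D →+* R) (t : D →+* O) (z : R →+* O)
    (hz : Isol (φ.comp σ) (t.comp σ) z) : Isol φ t z := by
  obtain ⟨h1, h2⟩ := hz
  refine ⟨?_, ?_⟩
  · ext x
    obtain ⟨y, rfl⟩ := hσ x
    exact congrArg (fun h : T →+* O => h y) h1
  · have h3 : (RingHom.ker (t.comp σ)).map (φ.comp σ) = (RingHom.ker t).map φ := by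
      have h4 : RingHom.ker (t.comp σ) = (RingHom.ker t).comap σ := rfl
      rw [h4, ← Ideal.map_map, Ideal.map_comap_of_surjective σ hσ]
    rwa [h3] at h2

theorem base_case {T R O : Type} [CommRing T] [CommRing R] [CommRing O] [IsDomain O] (φ : T →+* R)
    (n : ℕ) (r : Fin n → R) (hr : ∀ b : R, ∃ a : Fin n → T, b = ∑ j, φ (a j) * r j) (t : T →+* O) :
    {z : R →+* O | z.comp φ = t}.encard ≤ n := by
  classical
  by_contra hcon
  rw [not_le] at hcon
  obtain ⟨S, hS, hcard⟩ := Set.exists_subset_encard_eq (k := (n + 1 : ℕ)) (by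
    exact_mod_cast Order.add_one_le_of_lt hcon)
  have hfin : S.Finite := Set.finite_of_encard_eq_coe hcard
  have h1 := FinP.card_le_of_finite φ r hr t hfin.toFinset (fun z hz => hS (by simpa using hz))
  have h2 : hfin.toFinset.card = n + 1 := by
    have h3 := hcard
    rw [hfin.encard_eq_coe_toFinset_card] at h3
    exact_mod_cast h3
  omega

/-! local homomorphisms -/
theorem isLocalHom_point {W T O : Type} [CommRing W] [CommRing T] [IsLocalRing T] [CommRing O]
    [IsLocalRing O] (i : W →+* T) (ω : W →+* O) (hω : Res ω)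
    (hl : IsLocalHom ω) (t : T →+* O) (ht : t.comp i = ω) : IsLocalHom t := by
  constructor
  intro x hx
  by_contra hnx
  obtain ⟨w, hw⟩ := hω (t x)
  have h1 : IsUnit (ω w) := by
    by_contra h
    have h2 : ω w ∈ maximalIdeal O := (IsLocalRing.mem_maximalIdeal _).2 h
    have h3 : t x ∈ maximalIdeal O := by
      have := Ideal.add_mem _ hw h2
      rwa [sub_add_cancel] at this
    exact (IsLocalRing.mem_maximalIdeal _).1 h3 hx
  have h2 : IsUnit w := hl.map_nonunit _ h1
  have h3 : IsUnit (x - i w) := by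
    by_contra h
    have h4 : i w ∈ maximalIdeal T := by
      have h5 := Ideal.sub_mem _ ((IsLocalRing.mem_maximalIdeal x).2 hnx)
        ((IsLocalRing.mem_maximalIdeal (x - i w)).2 h)
      rwa [sub_sub_cancel] at h5
    exact (IsLocalRing.mem_maximalIdeal _).1 h4 (h2.map i)
  have h4 := h3.map t
  rw [map_sub] at h4
  have h5 : t (i w) = ω w := by rw [← ht]; rfl
  rw [h5] at h4
  exact (IsLocalRing.mem_maximalIdeal _).1 hw h4

end Pool.Agent.UF
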