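import Pool.Agent.UF.G0
import Pool.Agent.UF.B
import Pool.Agent.UF.C

/-!
# UF, module G: base change of isolated points
-/

set_option autoImplicit false

open IsLocalRing

namespace Pool.Agent.UF

namespace G

/-- the evaluation is natural -/
theorem ev_comp_map {T R O : Type} [CommRing T] [CommRing R] [CommRing O] [IsLocalRing O]
    [IsAdicComplete (maximalIdeal O) O] (φ : T →+* R) (t : T →+* O) (z : R →+* O)
    (hz : z.comp φ = t) {s : ℕ} (v : Fin s → O) (hv : ∀ j, v j ∈ maximalIdeal O) :
    (ev z v hv).comp (MvPowerSeries.map (σ := Fin s) φ) = ev t v hv := by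
  apply hom_ext
  · intro a
    rw [RingHom.comp_apply, MvPowerSeries.map_C, ev_C, ev_C, ← hz, RingHom.comp_apply]
  · intro i
    rw [RingHom.comp_apply, MvPowerSeries.map_X, ev_X, ev_X]
  · intro i
    rw [RingHom.comp_apply, MvPowerSeries.map_X, ev_X]
    exact hv i

/-- the quotient of the power series over `R` by a prime ideal which contains distinguished
polynomials in the variables is finite over `R` -/
theorem finite_quotient {W R : Type} [CommRing W] [IsLocalRing W] [CommRing R] [IsLocalRing R]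
    [IsNoetherianRing R] [IsAdicComplete (maximalIdeal R) R] (i : W →+* R) (hi : IsLocalHom i)
    {s : ℕ} (q : Ideal (MvPowerSeries (Fin s) R)) (hq : q ≠ ⊤)
    (P : Fin s → Polynomial W) (hP : ∀ j, (P j).Monic)
    (hP' : ∀ j, ∀ n < (P j).natDegree, (P j).coeff n ∈ maximalIdeal W)
    (hPq : ∀ j, (P j).eval₂ ((MvPowerSeries.C (σ := Fin s)).comp i) (MvPowerSeries.X j) ∈ q) :
    ((Ideal.Quotient.mk q).comp (MvPowerSeries.C (σ := Fin s) (R := R))).Finite := by
  have : Nontrivial (MvPowerSeries (Fin s) R ⧸ q) := Ideal.Quotient.nontrivial_iff.2 hq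
  have : IsLocalRing (MvPowerSeries (Fin s) R ⧸ q) :=
    IsLocalRing.of_surjective' (Ideal.Quotient.mk q) Ideal.Quotient.mk_surjective
  have hloc : IsLocalHom (Ideal.Quotient.mk q) :=
    IsLocalHom.of_surjective (Ideal.Quotient.mk q) Ideal.Quotient.mk_surjective
  set f := (Ideal.Quotient.mk q).comp (MvPowerSeries.C (σ := Fin s) (R := R)) with hf
  have hfl : IsLocalHom f := by
    constructor
    intro a ha
    have h1 : IsUnit (MvPowerSeries.C (σ := Fin s) a) := hloc.map_nonunit _ ha
    rwa [MvPowerSeries.isUnit_iff_constantCoeff, MvPowerSeries.constantCoeff_C] at h1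
  have hres : ∀ b : MvPowerSeries (Fin s) R ⧸ q, ∃ a : R, b - f a ∈ maximalIdeal _ := by
    intro b
    obtain ⟨F, rfl⟩ := Ideal.Quotient.mk_surjective b
    refine ⟨MvPowerSeries.constantCoeff F, ?_⟩
    rw [hf, RingHom.comp_apply, ← map_sub]
    rw [IsLocalRing.mem_maximalIdeal, mem_nonunits_iff]
    intro h
    have h2 := hloc.map_nonunit _ h
    rw [MvPowerSeries.isUnit_iff_constantCoeff, map_sub, MvPowerSeries.constantCoeff_C,
      sub_self] at h2
    exact not_isUnit_zero h2
  have hX : ∀ j, Ideal.Quotient.mk q (MvPowerSeries.X j) ∈ ((maximalIdeal R).map f).radical := by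
    intro j
    refine ⟨(P j).natDegree, ?_⟩
    have h1 : Ideal.Quotient.mk q
        ((P j).eval₂ ((MvPowerSeries.C (σ := Fin s)).comp i) (MvPowerSeries.X j)) = 0 :=
      Ideal.Quotient.eq_zero_iff_mem.2 (hPq j)
    rw [Polynomial.eval₂_eq_sum_range, map_sum, Finset.sum_range_succ, map_mul,
      (hP j).coeff_natDegree, map_one, map_one, one_mul, map_pow] at h1
    have h2 := eq_neg_of_add_eq_zero_right h1
    rw [h2]
    refine neg_mem (Ideal.sum_mem _ fun n hn => ?_)
    rw [map_mul]
    refine Ideal.mul_mem_right _ _ ?_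
    have h3 : i ((P j).coeff n) ∈ maximalIdeal R := by
      rw [IsLocalRing.mem_maximalIdeal, mem_nonunits_iff]
      intro h
      exact (IsLocalRing.mem_maximalIdeal _).1 (hP' j n (Finset.mem_range.1 hn))
        (hi.map_nonunit _ h)
    exact Ideal.mem_map_of_mem f h3
  have hrad : maximalIdeal (MvPowerSeries (Fin s) R ⧸ q) ≤ ((maximalIdeal R).map f).radical := by
    intro b hb
    obtain ⟨F, rfl⟩ := Ideal.Quotient.mk_surjective b
    have h1 : MvPowerSeries.constantCoeff F ∈ maximalIdeal R := by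
      rw [IsLocalRing.mem_maximalIdeal, mem_nonunits_iff] at hb ⊢
      intro h
      exact hb ((MvPowerSeries.isUnit_iff_constantCoeff.2 h).map _)
    have h2 : Ideal.Quotient.mk q F = f (MvPowerSeries.constantCoeff F) +
        Ideal.Quotient.mk q (F - MvPowerSeries.C (MvPowerSeries.constantCoeff F)) := by
      rw [hf, RingHom.comp_apply, ← map_add, add_sub_cancel]
    rw [h2]
    refine Ideal.add_mem _ (Ideal.le_radical (Ideal.mem_map_of_mem f h1)) ?_
    have h3 : Ideal.span (Set.range (MvPowerSeries.X (R := R) (σ := Fin s))) ≤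
        (((maximalIdeal R).map f).radical).comap (Ideal.Quotient.mk q) := by
      rw [Ideal.span_le]
      rintro _ ⟨j, rfl⟩
      exact hX j
    exact h3 (sub_C_mem F)
  obtain ⟨N, hN⟩ := Ideal.exists_pow_le_of_le_radical_of_fg hrad
    (IsNoetherian.noetherian (maximalIdeal (MvPowerSeries (Fin s) R ⧸ q)))
  exact finite_of_param f hfl hres N hN

end G

theorem isol_baseChange {W T R O : Type} [CommRing W] [IsLocalRing W]
    [CommRing T] [IsLocalRing T] [IsNoetherianRing T] [IsAdicComplete (maximalIdeal T) T]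
    [CommRing R] [IsLocalRing R] [IsNoetherianRing R] [IsAdicComplete (maximalIdeal R) R]
    [CommRing O] [IsLocalRing O] [IsAdicComplete (maximalIdeal O) O]
    (i : W →+* T) (hi : IsLocalHom i) (φ : T →+* R) (hφ : IsLocalHom φ) (ω : W →+* O)
    (hω : IsTest ω) (t : T →+* O) (ht : t.comp i = ω) (z : R →+* O) (hz : Isol φ t z) (s : ℕ)
    (v : Fin s → O) (hv : ∀ j, v j ∈ maximalIdeal O) :
    Isol (MvPowerSeries.map (σ := Fin s) φ) (ev t v hv) (ev z v hv) := by
  have := hω.dom
  have h0 := G.ev_comp_map φ t z hz.1 v hv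
  refine ⟨h0, ⟨⟨RingHom.ker_isPrime _, ?_⟩, ?_⟩⟩
  · rw [Ideal.map_le_iff_le_comap]
    intro a ha
    rw [Ideal.mem_comap, RingHom.mem_ker, ← RingHom.comp_apply, h0]
    exact ha
  · rintro q ⟨hq, h1⟩ h2
    -- the contraction of `q` is the kernel of `z`
    have h3 : RingHom.ker z ≤ q.comap (MvPowerSeries.C (σ := Fin s) (R := R)) := by
      refine hz.2.2 ⟨hq.comap _, ?_⟩ ?_
      · rw [Ideal.map_le_iff_le_comap]
        intro a ha
        rw [Ideal.mem_comap, Ideal.mem_comap, ← MvPowerSeries.map_C]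
        refine h1 (Ideal.mem_map_of_mem _ ?_)
        rw [RingHom.mem_ker, ev_C]
        exact ha
      · intro a ha
        have := h2 ha
        rwa [RingHom.mem_ker, ev_C] at this
    choose P hP hP' hPv using fun j => hω.dist (v j) (hv j)
    have hPq : ∀ j, (P j).eval₂ ((MvPowerSeries.C (σ := Fin s)).comp (φ.comp i))
        (MvPowerSeries.X j) ∈ q := by
      intro j
      have h4 : (P j).eval₂ ((MvPowerSeries.C (σ := Fin s)).comp (φ.comp i))
          (MvPowerSeries.X j) = MvPowerSeries.map (σ := Fin s) φ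
          ((P j).eval₂ ((MvPowerSeries.C (σ := Fin s)).comp i) (MvPowerSeries.X j)) := by
        rw [Polynomial.hom_eval₂, MvPowerSeries.map_X]
        congr 1
        ext w : 1
        simp only [RingHom.comp_apply, MvPowerSeries.map_C]
      rw [h4]
      refine h1 (Ideal.mem_map_of_mem _ ?_)
      rw [RingHom.mem_ker, Polynomial.hom_eval₂, ev_X]
      have h5 : (ev t v hv).comp ((MvPowerSeries.C (σ := Fin s)).comp i) = ω := by
        ext w : 1
        rw [RingHom.comp_apply, RingHom.comp_apply, ev_C, ← ht, RingHom.comp_apply]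
      rw [h5]
      exact hPv j
    have hfin := G.finite_quotient (φ.comp i) (by
      constructor
      intro a ha
      exact hi.map_nonunit _ (hφ.map_nonunit _ ha)) q hq.ne_top P hP hP' hPq
    intro r hr
    by_contra hrq
    obtain ⟨p, hp, hpr⟩ := hfin.to_isIntegral (Ideal.Quotient.mk q r)
    have h6 : p.eval₂ (MvPowerSeries.C (σ := Fin s) (R := R)) r ∈ q := by
      rw [← Ideal.Quotient.eq_zero_iff_mem, Polynomial.hom_eval₂]
      exact hpr
    have h7 := Ideal.comap_lt_comap_of_root_mem_sdiff (f := MvPowerSeries.C (σ := Fin s) (R := R))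
      (I := q) (J := RingHom.ker (ev z v hv)) h2 (r := r) ⟨hr, hrq⟩ (p := p)
      (Polynomial.Monic.ne_zero (hp.map _)) h6
    refine absurd (h7.2) (not_not.2 ?_)
    intro a ha
    apply h3
    rw [Ideal.mem_comap, RingHom.mem_ker, ev_C] at ha
    exact ha

end Pool.Agent.UF
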