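import Pool.Agent.UF.Defs

/-!
# UF: the ideal of the variables in a power series ring
-/

set_option autoImplicit false

open IsLocalRing

namespace Pool.Agent.UF

namespace G

/-- a power series without constant term lies in the ideal of the variables -/
theorem sub_C_mem {A : Type} [CommRing A] {n : ℕ} (F : MvPowerSeries (Fin n) A) :
    F - MvPowerSeries.C (MvPowerSeries.constantCoeff F) ∈
      Ideal.span (Set.range (MvPowerSeries.X (R := A) (σ := Fin n))) := by
  classical
  let g : Fin n → MvPowerSeries (Fin n) A := fun j d =>
    if ∀ i < j, d i = 0 then F (d + Finsupp.single j 1) else 0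
  have key : F - MvPowerSeries.C (MvPowerSeries.constantCoeff F) =
      ∑ j, g j * MvPowerSeries.X j := by
    ext d
    rw [map_sub, map_sum]
    have h1 : ∀ j, MvPowerSeries.coeff d (g j * MvPowerSeries.X j) =
        if 1 ≤ d j ∧ ∀ i < j, d i = 0 then MvPowerSeries.coeff d F else 0 := by
      intro j
      rw [MvPowerSeries.X, MvPowerSeries.coeff_mul_monomial]
      by_cases hj : 1 ≤ d j
      · have h2 : Finsupp.single j 1 ≤ d := by
          rw [Finsupp.single_le_iff]
          exact hj
        rw [if_pos h2, mul_one]
        change g j (d - Finsupp.single j 1) = _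
        have h3 : d - Finsupp.single j 1 + Finsupp.single j 1 = d := tsub_add_cancel_of_le h2
        have h4 : (∀ i < j, (d - Finsupp.single j 1 : Fin n →₀ ℕ) i = 0) ↔ ∀ i < j, d i = 0 := by
          refine forall₂_congr fun i hi => ?_
          rw [Finsupp.tsub_apply, Finsupp.single_eq_of_ne (ne_of_lt hi)]
          simp
        simp only [g, h3]
        by_cases h5 : ∀ i < j, d i = 0
        · rw [if_pos (h4.2 h5), if_pos ⟨hj, h5⟩]
          rfl
        · rw [if_neg (fun h => h5 (h4.1 h)), if_neg (fun h => h5 h.2)]
      · rw [if_neg (fun h => hj (Finsupp.single_le_iff.1 h)), if_neg (fun h => hj h.1)]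
    simp only [h1]
    by_cases hd : d = 0
    · subst hd
      simp
    · have h2 : ∃ j, 1 ≤ d j := by
        by_contra hcon
        push Not at hcon
        exact hd (Finsupp.ext fun j => by
          have := hcon j
          simp only [Finsupp.coe_zero, Pi.zero_apply]
          omega)
      have h3 : (Finset.univ.filter fun j => 1 ≤ d j).Nonempty := by
        obtain ⟨j, hj⟩ := h2
        exact ⟨j, by simpa using hj⟩
      let j0 := (Finset.univ.filter fun j => 1 ≤ d j).min' h3
      have hj0 : 1 ≤ d j0 := by
        have := Finset.min'_mem _ h3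
        simpa using this
      have hj1 : ∀ i < j0, d i = 0 := by
        intro i hi
        by_contra hne
        have : j0 ≤ i := Finset.min'_le _ _ (by simp; omega)
        exact absurd hi (not_lt.2 this)
      rw [Finset.sum_eq_single j0]
      · rw [if_pos ⟨hj0, hj1⟩, MvPowerSeries.coeff_C, if_neg hd, sub_zero]
      · intro j _ hj
        rw [if_neg]
        rintro ⟨h4, h5⟩
        rcases lt_or_gt_of_ne hj with h6 | h6
        · have := hj1 j h6
          omega
        · have := h5 j0 h6
          omega
      · intro h
        exact absurd (Finset.mem_univ _) h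
  rw [key]
  exact Ideal.sum_mem _ fun j _ => Ideal.mul_mem_left _ _
    (Ideal.subset_span ⟨j, rfl⟩)

end G

end Pool.Agent.UF
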