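import Pool.Agent.UF.B
import Pool.Agent.UF.C
import Pool.Agent.UF.D
import Pool.Agent.UF.E
import Pool.Agent.UF.F
import Pool.Agent.UF.G

/-!
# UF, module H: the charts
-/

set_option autoImplicit false

open IsLocalRing

namespace Pool.Agent.UF

namespace H

theorem map_max_le {A B : Type} [CommRing A] [IsLocalRing A] [CommRing B] [IsLocalRing B]
    (f : A →+* B) (hf : IsLocalHom f) {x : A} (hx : x ∈ maximalIdeal A) :
    f x ∈ maximalIdeal B := by
  rw [IsLocalRing.mem_maximalIdeal, mem_nonunits_iff] at hx ⊢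
  exact fun h => hx (hf.map_nonunit _ h)

theorem mem_max_ps {A : Type} [CommRing A] [IsLocalRing A] {n : ℕ} (F : MvPowerSeries (Fin n) A) :
    F ∈ maximalIdeal (MvPowerSeries (Fin n) A) ↔
      MvPowerSeries.constantCoeff F ∈ maximalIdeal A := by
  rw [IsLocalRing.mem_maximalIdeal, mem_nonunits_iff, MvPowerSeries.isUnit_iff_constantCoeff,
    IsLocalRing.mem_maximalIdeal, mem_nonunits_iff]

theorem C_mem {A : Type} [CommRing A] [IsLocalRing A] {n : ℕ} {a : A} (ha : a ∈ maximalIdeal A) :
    MvPowerSeries.C (σ := Fin n) a ∈ maximalIdeal (MvPowerSeries (Fin n) A) := by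
  rw [mem_max_ps, MvPowerSeries.constantCoeff_C]
  exact ha

theorem X_mem {A : Type} [CommRing A] [IsLocalRing A] {n : ℕ} (j : Fin n) :
    (MvPowerSeries.X j : MvPowerSeries (Fin n) A) ∈
      maximalIdeal (MvPowerSeries (Fin n) A) := by
  rw [mem_max_ps, MvPowerSeries.constantCoeff_X]
  exact zero_mem _

theorem res_ps {W A : Type} [CommRing W] [CommRing A] [IsLocalRing A] (j : W →+* A) (hj : Res j)
    (n : ℕ) : Res ((MvPowerSeries.C (σ := Fin n) (R := A)).comp j) := by
  intro x
  obtain ⟨w, hw⟩ := hj (MvPowerSeries.constantCoeff x)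
  refine ⟨w, ?_⟩
  rw [mem_max_ps, map_sub, RingHom.comp_apply, MvPowerSeries.constantCoeff_C]
  exact hw

theorem res_surj {W A B : Type} [CommRing W] [CommRing A] [IsLocalRing A] [CommRing B]
    [IsLocalRing B] (j : W →+* A) (hj : Res j) (f : A →+* B) (hf : Function.Surjective f) :
    Res (f.comp j) := by
  intro x
  obtain ⟨a, rfl⟩ := hf x
  obtain ⟨w, hw⟩ := hj a
  refine ⟨w, ?_⟩
  rw [RingHom.comp_apply, ← map_sub]
  exact map_max_le f (IsLocalHom.of_surjective f hf) hw

theorem local_C {A : Type} [CommRing A] [IsLocalRing A] (n : ℕ) :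
    IsLocalHom (MvPowerSeries.C (σ := Fin n) (R := A)) := by
  constructor
  intro a ha
  rwa [MvPowerSeries.isUnit_iff_constantCoeff, MvPowerSeries.constantCoeff_C] at ha

theorem local_map {A B : Type} [CommRing A] [IsLocalRing A] [CommRing B] [IsLocalRing B]
    (f : A →+* B) (hf : IsLocalHom f) (n : ℕ) :
    IsLocalHom (MvPowerSeries.map (σ := Fin n) f) := by
  constructor
  intro a ha
  rw [MvPowerSeries.isUnit_iff_constantCoeff] at ha ⊢
  rw [MvPowerSeries.constantCoeff_map] at ha
  exact hf.map_nonunit _ ha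

theorem local_comp {A B C : Type} [CommRing A] [CommRing B] [CommRing C] (f : A →+* B)
    (g : B →+* C) (hf : IsLocalHom f) (hg : IsLocalHom g) : IsLocalHom (g.comp f) := by
  constructor
  intro a ha
  exact hf.map_nonunit _ (hg.map_nonunit _ ha)

/-- the equation of the chart -/
noncomputable def eqn {W D R : Type} [CommRing W] [CommRing D] [CommRing R] (i : W →+* D)
    {e s : ℕ} (ψ : MvPowerSeries (Fin e) D →+* R) (d : Fin s → MvPowerSeries (Fin e) D)
    (w : Fin s → W) : MvPowerSeries (Fin s) R :=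
  ∑ j, (MvPowerSeries.C (ψ (MvPowerSeries.C (i (w j)))) + MvPowerSeries.X j) *
    MvPowerSeries.C (ψ (d j))

/-- the chart -/
abbrev Rc {W D R : Type} [CommRing W] [CommRing D] [CommRing R] (i : W →+* D)
    {e s : ℕ} (ψ : MvPowerSeries (Fin e) D →+* R) (d : Fin s → MvPowerSeries (Fin e) D)
    (w : Fin s → W) : Type :=
  MvPowerSeries (Fin s) R ⧸ Ideal.span {eqn i ψ d w}

/-- the structure map of the chart -/
noncomputable def φc {W D R : Type} [CommRing W] [CommRing D] [CommRing R] (i : W →+* D)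
    {e s : ℕ} (ψ : MvPowerSeries (Fin e) D →+* R) (d : Fin s → MvPowerSeries (Fin e) D)
    (w : Fin s → W) : MvPowerSeries (Fin s) D →+* Rc i ψ d w :=
  (Ideal.Quotient.mk (Ideal.span {eqn i ψ d w})).comp
    (MvPowerSeries.map (σ := Fin s) (ψ.comp MvPowerSeries.C))

/-- the dimension of the chart -/
theorem chart_dim {W D R : Type} [CommRing W] [IsLocalRing W] [CommRing D] [IsLocalRing D]
    [IsNoetherianRing D] [CommRing R] [IsLocalRing R] (i : W →+* D)
    {e s : ℕ} (ψ : MvPowerSeries (Fin (e + 1)) D →+* R) (hψ : ψ.Finite)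
    (d : Fin s → MvPowerSeries (Fin (e + 1)) D) (w : Fin s → W)
    (m : Fin s → (Fin (e + 1) →₀ ℕ))
    (hδ : ∀ i j, MvPowerSeries.coeff (m i) (d j) = if i = j then 1 else 0) (j0 : Fin s)
    (hj0 : IsUnit (w j0)) :
    ringKrullDim (Rc i ψ d w ⧸ (maximalIdeal (MvPowerSeries (Fin s) D)).map (φc i ψ d w)) ≤ e := by
  classical
  set φ : D →+* R := ψ.comp MvPowerSeries.C with hφ
  let C0 := R ⧸ (maximalIdeal D).map φ
  let rs : MvPowerSeries (Fin (e + 1)) D →+* MvPowerSeries (Fin (e + 1)) (ResidueField D) :=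
    MvPowerSeries.map (residue D)
  have hrs : Function.Surjective rs := by
    intro F
    choose f hf using fun a => residue_surjective (R := D) (MvPowerSeries.coeff a F)
    let f' : MvPowerSeries (Fin (e + 1)) D := f
    refine ⟨f', ?_⟩
    ext a
    have h1 : MvPowerSeries.coeff a (rs f') = residue D (MvPowerSeries.coeff a f') :=
      MvPowerSeries.coeff_map _ _ _
    exact h1.trans (hf a)
  have hker : RingHom.ker rs ≤ RingHom.ker ((Ideal.Quotient.mk ((maximalIdeal D).map φ)).comp ψ) := by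
    rw [FinP.ker_map_eq, ker_residue, Ideal.map_le_iff_le_comap]
    intro a ha
    rw [Ideal.mem_comap, RingHom.mem_ker, RingHom.comp_apply, Ideal.Quotient.eq_zero_iff_mem]
    exact Ideal.mem_map_of_mem φ ha
  let g : MvPowerSeries (Fin (e + 1)) (ResidueField D) →+* C0 :=
    RingHom.liftOfSurjective rs hrs
      ⟨(Ideal.Quotient.mk ((maximalIdeal D).map φ)).comp ψ, hker⟩
  have hg : g.comp rs = (Ideal.Quotient.mk ((maximalIdeal D).map φ)).comp ψ :=
    RingHom.liftOfSurjective_comp rs hrs _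
  have hgfin : g.Finite := by
    have h1 : (g.comp rs).Finite := by
      rw [hg]
      exact (RingHom.Finite.of_surjective _ Ideal.Quotient.mk_surjective).comp hψ
    exact RingHom.Finite.of_comp_finite h1
  let f1 : MvPowerSeries (Fin (e + 1)) D := ∑ j, MvPowerSeries.C (i (w j)) * d j
  have hf0 : rs f1 ≠ 0 := by
    intro h
    have h1 : MvPowerSeries.coeff (m j0) (rs f1) = residue D (i (w j0)) := by
      rw [MvPowerSeries.coeff_map]
      congr 1
      simp only [f1, map_sum, MvPowerSeries.coeff_C_mul, hδ]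
      rw [Finset.sum_eq_single j0]
      · rw [if_pos rfl, mul_one]
      · intro j _ hj
        rw [if_neg (Ne.symm hj), mul_zero]
      · intro hj
        exact absurd (Finset.mem_univ _) hj
    rw [h, map_zero] at h1
    have h2 : IsUnit (residue D (i (w j0))) := (hj0.map i).map _
    rw [← h1] at h2
    exact not_isUnit_zero h2
  have hdim := dim_drop g hgfin (rs f1) hf0
  refine le_trans ?_ hdim
  -- the surjection
  let Q := Rc i ψ d w ⧸ (maximalIdeal (MvPowerSeries (Fin s) D)).map (φc i ψ d w)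
  let mk1 : MvPowerSeries (Fin s) R →+* Rc i ψ d w := Ideal.Quotient.mk _
  let mk2 : Rc i ψ d w →+* Q := Ideal.Quotient.mk _
  let π : R →+* Q := (mk2.comp mk1).comp (MvPowerSeries.C (σ := Fin s))
  have hX : ∀ j, mk2 (mk1 (MvPowerSeries.X j)) = 0 := by
    intro j
    have h1 : mk1 (MvPowerSeries.X j) = φc i ψ d w (MvPowerSeries.X j) := by
      change _ = mk1 (MvPowerSeries.map _ _)
      rw [MvPowerSeries.map_X]
    rw [h1]
    exact Ideal.Quotient.eq_zero_iff_mem.2 (Ideal.mem_map_of_mem _ (X_mem j))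
  have hspan : ∀ F ∈ Ideal.span (Set.range (MvPowerSeries.X (R := R) (σ := Fin s))),
      mk2 (mk1 F) = 0 := by
    intro F hF
    have h1 : Ideal.span (Set.range (MvPowerSeries.X (R := R) (σ := Fin s))) ≤
        RingHom.ker (mk2.comp mk1) := by
      rw [Ideal.span_le]
      rintro _ ⟨j, rfl⟩
      exact hX j
    exact h1 hF
  have hπ : Function.Surjective π := by
    intro q
    obtain ⟨q1, rfl⟩ := Ideal.Quotient.mk_surjective q
    obtain ⟨F, rfl⟩ := Ideal.Quotient.mk_surjective q1
    refine ⟨MvPowerSeries.constantCoeff F, ?_⟩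
    have h1 := hspan _ (G.sub_C_mem F)
    rw [map_sub, map_sub, sub_eq_zero] at h1
    exact h1.symm
  have hπ1 : ∀ a ∈ (maximalIdeal D).map φ, π a = 0 := by
    have h1 : (maximalIdeal D).map φ ≤ RingHom.ker π := by
      rw [Ideal.map_le_iff_le_comap]
      intro a ha
      rw [Ideal.mem_comap, RingHom.mem_ker]
      have h2 : π (φ a) = mk2 (φc i ψ d w (MvPowerSeries.C a)) := by
        change mk2 (mk1 (MvPowerSeries.C (φ a))) = mk2 (mk1 (MvPowerSeries.map _ _))
        rw [MvPowerSeries.map_C]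
      rw [h2]
      exact Ideal.Quotient.eq_zero_iff_mem.2 (Ideal.mem_map_of_mem _ (C_mem ha))
    exact fun a ha => h1 ha
  let π1 : C0 →+* Q := Ideal.Quotient.lift _ π hπ1
  have hπ2 : ∀ a ∈ Ideal.span {g (rs f1)}, π1 a = 0 := by
    have h1 : Ideal.span {g (rs f1)} ≤ RingHom.ker π1 := by
      rw [Ideal.span_le]
      rintro _ rfl
      rw [SetLike.mem_coe, RingHom.mem_ker]
      have h2 : g (rs f1) = Ideal.Quotient.mk ((maximalIdeal D).map φ) (ψ f1) :=
        congrArg (fun h => h f1) hg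
      rw [h2]
      change π (ψ f1) = 0
      have h3 : MvPowerSeries.C (σ := Fin s) (ψ f1) = eqn i ψ d w -
          ∑ j, MvPowerSeries.X j * MvPowerSeries.C (ψ (d j)) := by
        rw [eqn, ← Finset.sum_sub_distrib, map_sum, map_sum]
        refine Finset.sum_congr rfl fun j _ => ?_
        rw [map_mul, map_mul]
        ring
      change mk2 (mk1 (MvPowerSeries.C (ψ f1))) = 0
      rw [h3, map_sub, map_sub]
      have h4 : mk1 (eqn i ψ d w) = 0 :=
        Ideal.Quotient.eq_zero_iff_mem.2 (Ideal.subset_span rfl)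
      rw [h4, map_zero, zero_sub, neg_eq_zero]
      refine hspan _ (Ideal.sum_mem _ fun j _ => Ideal.mul_mem_right _ _
        (Ideal.subset_span ⟨j, rfl⟩))
    exact fun a ha => h1 ha
  let π2 : (C0 ⧸ Ideal.span {g (rs f1)}) →+* Q := Ideal.Quotient.lift _ π1 hπ2
  have hπ3 : Function.Surjective π2 := by
    intro q
    obtain ⟨a, rfl⟩ := hπ q
    exact ⟨Ideal.Quotient.mk _ (Ideal.Quotient.mk _ a), rfl⟩
  exact ringKrullDim_le_of_surjective π2 hπ3

/-- the point of the chart -/
theorem chart_point {W D R O : Type} [CommRing W] [IsLocalRing W] [CommRing D] [IsLocalRing D]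
    [IsNoetherianRing D] [IsAdicComplete (maximalIdeal D) D] [CommRing R] [IsLocalRing R]
    [IsNoetherianRing R] [IsAdicComplete (maximalIdeal R) R] [CommRing O] [IsLocalRing O]
    [IsAdicComplete (maximalIdeal O) O] (i : W →+* D) (hi : IsLocalHom i)
    {e s : ℕ} (ψ : MvPowerSeries (Fin e) D →+* R) (hψ : IsLocalHom (ψ.comp MvPowerSeries.C))
    (d : Fin s → MvPowerSeries (Fin e) D) (w : Fin s → W) (c : MvPowerSeries (Fin e) D)
    (a : Fin s → D) (hc : c = ∑ j, MvPowerSeries.C (a j) * d j)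
    (ω : W →+* O) (hω : IsTest ω) (t : D →+* O) (ht : t.comp i = ω) (z : R →+* O)
    (hz : Isol (ψ.comp MvPowerSeries.C) t z) (hzc : z (ψ c) = 0) (j0 : Fin s)
    (hj0 : t (a j0) ≠ 0) (u v : Fin s → O) (hu : ∀ j, t (a j) = t (a j0) * u j)
    (huv : ∀ j, u j = ω (w j) + v j) (hv : ∀ j, v j ∈ maximalIdeal O) :
    ∃ z' : Rc i ψ d w →+* O, Isol (φc i ψ d w) (ev t v hv) z' ∧
      ∀ b : R, z' (Ideal.Quotient.mk _ (MvPowerSeries.C b)) = z b := by
  have := hω.dom
  have h1 : ev z v hv (eqn i ψ d w) = 0 := by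
    have h2 : ev z v hv (eqn i ψ d w) = ∑ j, u j * z (ψ (d j)) := by
      rw [eqn, map_sum]
      refine Finset.sum_congr rfl fun j _ => ?_
      rw [map_mul, map_add, ev_C, ev_C, ev_X, huv j]
      congr 2
      have h3 : z (ψ (MvPowerSeries.C (i (w j)))) = t (i (w j)) :=
        congrArg (fun h : D →+* O => h (i (w j))) hz.1
      rw [h3, ← ht]
      rfl
    have h4 : t (a j0) * ev z v hv (eqn i ψ d w) = 0 := by
      rw [h2, Finset.mul_sum, ← hzc, hc, map_sum, map_sum]
      refine Finset.sum_congr rfl fun j _ => ?_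
      have h3 : z (ψ (MvPowerSeries.C (a j))) = t (a j) :=
        congrArg (fun h : D →+* O => h (a j)) hz.1
      rw [map_mul, map_mul, h3, hu j, mul_assoc]
    exact (mul_eq_zero.1 h4).resolve_left hj0
  have h5 : ∀ x ∈ Ideal.span {eqn i ψ d w}, ev z v hv x = 0 := by
    have h6 : Ideal.span {eqn i ψ d w} ≤ RingHom.ker (ev z v hv) := by
      rw [Ideal.span_le]
      rintro _ rfl
      exact h1
    exact fun x hx => h6 hx
  refine ⟨Ideal.Quotient.lift _ (ev z v hv) h5, ?_, ?_⟩
  · refine isol_quotient _ _ (Ideal.Quotient.mk _) Ideal.Quotient.mk_surjective _ ?_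
    have h7 : (Ideal.Quotient.lift _ (ev z v hv) h5).comp
        (Ideal.Quotient.mk (Ideal.span {eqn i ψ d w})) = ev z v hv := by
      ext x
      rfl
    rw [h7]
    exact isol_baseChange i hi _ hψ ω hω t ht z hz s v hv
  · intro b
    rw [Ideal.Quotient.lift_mk, ev_C]

end H

end Pool.Agent.UF
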