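import Pool.Agent.UF.H

/-!
# UF: the uniform finiteness theorem
-/

set_option autoImplicit false

open IsLocalRing

namespace Pool.Agent.UF

namespace M

/-- The theorem for fibres of dimension at most `e`. -/
def Claim (W : Type) [CommRing W] [IsLocalRing W] (e : ℕ) : Prop :=
  ∀ (T R : Type) [CommRing T] [IsLocalRing T] [IsNoetherianRing T]
    [IsAdicComplete (maximalIdeal T) T]
    [CommRing R] [IsLocalRing R] [IsNoetherianRing R] [IsAdicComplete (maximalIdeal R) R]
    (i : W →+* T) (φ : T →+* R), IsLocalHom i → IsLocalHom φ → Res i → Res (φ.comp i) →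
    ringKrullDim (R ⧸ (maximalIdeal T).map φ) ≤ e → ∃ M : ℕ, Bdd i φ ⊥ M

theorem map_ne_top {T R : Type} [CommRing T] [IsLocalRing T] [CommRing R] [IsLocalRing R]
    (φ : T →+* R) (hφ : IsLocalHom φ) : (maximalIdeal T).map φ ≠ ⊤ := by
  intro h
  have h1 : (maximalIdeal T).map φ ≤ maximalIdeal R := by
    rw [Ideal.map_le_iff_le_comap]
    intro a ha
    exact H.map_max_le φ hφ ha
  rw [h] at h1
  exact Ideal.IsPrime.ne_top' (top_le_iff.1 h1)

theorem claim_zero (W : Type) [CommRing W] [IsLocalRing W] : Claim W 0 := by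
  intro T R _ _ _ _ _ _ _ _ i φ hi hφ hT hR hdim
  obtain ⟨x, hx, N, hN⟩ := exists_param _ (map_ne_top φ hφ) 0 hdim
  have hspan : Ideal.span (Set.range x) = ⊥ := by
    rw [Set.range_eq_empty, Ideal.span_empty]
  rw [hspan, sup_bot_eq] at hN
  have hfin : φ.Finite := finite_of_param φ hφ (fun b => by
    obtain ⟨w, hw⟩ := hR b
    exact ⟨i w, hw⟩) N hN
  let _ := φ.toAlgebra
  have hmf : Module.Finite T R := hfin
  obtain ⟨n, r, hr⟩ := Module.Finite.exists_fin (R := T) (M := R)
  refine ⟨n, ?_⟩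
  intro O _ _ ω hω t ht _
  have := hω.dom
  refine (Set.encard_le_encard ?_).trans (base_case φ n r ?_ t)
  · intro z hz
    exact hz.1
  · intro b
    have h1 : b ∈ Submodule.span T (Set.range r) := by
      rw [hr]
      exact Submodule.mem_top
    obtain ⟨a, ha⟩ := (Submodule.mem_span_range_iff_exists_fun T).1 h1
    exact ⟨a, by rw [← ha]; rfl⟩

/-- in a valuation ring a finite family has a divisor -/
theorem exists_dvd {O ι : Type} [CommRing O] (hval : ∀ a b : O, a ∣ b ∨ b ∣ a) (f : ι → O)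
    (S : Finset ι) (hS : S.Nonempty) : ∃ j0 ∈ S, ∀ j ∈ S, f j0 ∣ f j := by
  classical
  induction hS using Finset.Nonempty.cons_induction with
  | singleton a => exact ⟨a, by simp, by simp⟩
  | cons a s ha hs ih =>
    obtain ⟨j0, hj0, h⟩ := ih
    rcases hval (f a) (f j0) with h1 | h1
    · refine ⟨a, by simp, ?_⟩
      intro j hj
      rcases Finset.mem_cons.1 hj with rfl | hj
      · exact dvd_rfl
      · exact h1.trans (h j hj)
    · refine ⟨j0, by simp [hj0], ?_⟩
      intro j hj
      rcases Finset.mem_cons.1 hj with rfl | hj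
      · exact h1
      · exact h j hj

theorem claim_succ (W : Type) [CommRing W] [IsLocalRing W] [IsNoetherianRing W]
    [Finite (ResidueField W)] (e : ℕ) (ih : Claim W e) : Claim W (e + 1) := by
  classical
  intro T R _ _ _ _ _ _ _ _ i φ hi hφ hT hR hdim
  obtain ⟨x, hx, N, hN⟩ := exists_param _ (map_ne_top φ hφ) (e + 1) hdim
  suffices h : ∀ I : Ideal T, ∃ M : ℕ, Bdd i φ I M from h ⊥
  intro I
  refine IsNoetherian.induction (R := T) (M := T) (P := fun I : Ideal T => ∃ M : ℕ, Bdd i φ I M)
    (fun (I : Ideal T) (hI : ∀ J : Ideal T, J > I → ∃ M : ℕ, Bdd i φ J M) => ?_) I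
  by_cases hIt : I = ⊤
  · refine ⟨0, ?_⟩
    intro O _ _ ω hω t ht htI
    have := hω.dom
    rw [hIt] at htI
    have h1 : (1 : T) ∈ RingHom.ker t := htI Submodule.mem_top
    rw [RingHom.mem_ker, map_one] at h1
    exact absurd h1 one_ne_zero
  by_cases hIp : I.IsPrime
  swap
  · -- not prime
    have hex : ∃ a b : T, a * b ∈ I ∧ a ∉ I ∧ b ∉ I := by
      by_contra hcon
      push Not at hcon
      refine hIp ⟨hIt, fun {a b} hab => ?_⟩
      by_cases ha : a ∈ I
      · exact Or.inl ha
      · exact Or.inr (hcon a b hab ha)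
    obtain ⟨a, b, hab, ha, hb⟩ := hex
    have hgt : ∀ c : T, c ∉ I → I < I ⊔ Ideal.span {c} := by
      intro c hc
      refine lt_of_le_of_ne le_sup_left fun h => hc ?_
      rw [h]
      exact Ideal.mem_sup_right (Ideal.subset_span rfl)
    obtain ⟨M1, hM1⟩ := hI _ (hgt a ha)
    obtain ⟨M2, hM2⟩ := hI _ (hgt b hb)
    refine ⟨max M1 M2, ?_⟩
    intro O _ _ ω hω t ht htI
    have := hω.dom
    have h1 : t a * t b = 0 := by
      rw [← map_mul]
      exact htI hab
    rcases mul_eq_zero.1 h1 with h2 | h2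
    · refine (hM1 O ω hω t ht (sup_le htI ?_)).trans (by exact_mod_cast le_max_left _ _)
      rw [Ideal.span_le]
      rintro _ rfl
      exact h2
    · refine (hM2 O ω hω t ht (sup_le htI ?_)).trans (by exact_mod_cast le_max_right _ _)
      rw [Ideal.span_le]
      rintro _ rfl
      exact h2
  -- the prime case
  let D := T ⧸ I
  let σ : T →+* D := Ideal.Quotient.mk I
  have hσ : Function.Surjective σ := Ideal.Quotient.mk_surjective
  let R' := R ⧸ I.map φ
  let π : R →+* R' := Ideal.Quotient.mk (I.map φ)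
  have hπ : Function.Surjective π := Ideal.Quotient.mk_surjective
  by_cases hR' : I.map φ = ⊤
  · refine ⟨0, ?_⟩
    intro O _ _ ω hω t ht htI
    have := hω.dom
    rw [Nat.cast_zero, nonpos_iff_eq_zero, Set.encard_eq_zero, Set.eq_empty_iff_forall_notMem]
    intro z hz
    have h1 : I.map φ ≤ RingHom.ker z := by
      rw [Ideal.map_le_iff_le_comap]
      intro a ha
      rw [Ideal.mem_comap, RingHom.mem_ker, ← RingHom.comp_apply, hz.1]
      exact htI ha
    rw [hR'] at h1
    have h2 : (1 : R) ∈ RingHom.ker z := h1 Submodule.mem_top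
    rw [RingHom.mem_ker, map_one] at h2
    exact one_ne_zero h2
  have : Nontrivial R' := Ideal.Quotient.nontrivial_iff.2 hR'
  have : IsDomain D := Ideal.Quotient.isDomain I
  have : IsLocalRing D := IsLocalRing.of_surjective' σ hσ
  have : IsLocalRing R' := IsLocalRing.of_surjective' π hπ
  have : IsAdicComplete (maximalIdeal D) D := complete_of_surjective σ hσ
  have : IsAdicComplete (maximalIdeal R') R' := complete_of_surjective π hπ
  have hσl : IsLocalHom σ := IsLocalHom.of_surjective σ hσ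
  have hπl : IsLocalHom π := IsLocalHom.of_surjective π hπ
  let φ' : D →+* R' := Ideal.quotientMap (I.map φ) φ Ideal.le_comap_map
  have hφσ : φ'.comp σ = π.comp φ := by
    ext a
    rfl
  have hφ'l : IsLocalHom φ' := by
    constructor
    intro y hy
    obtain ⟨a, rfl⟩ := hσ y
    exact (hφ.map_nonunit a (hπl.map_nonunit (φ a) hy)).map σ
  let i' : W →+* D := σ.comp i
  have hi'l : IsLocalHom i' := H.local_comp i σ hi hσl
  have hResD : Res i' := H.res_surj i hT σ hσ
  have hResR' : Res (φ'.comp i') := H.res_surj (φ.comp i) hR π hπ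
  let x' : Fin (e + 1) → R' := fun j => π (x j)
  have hx' : ∀ j, x' j ∈ maximalIdeal R' := fun j => H.map_max_le π hπl (hx j)
  let ψ : MvPowerSeries (Fin (e + 1)) D →+* R' := ev φ' x' hx'
  have hψC : ψ.comp (MvPowerSeries.C (σ := Fin (e + 1)) (R := D)) = φ' :=
    RingHom.ext fun a => ev_C φ' x' hx' a
  have hψX : ∀ j, ψ (MvPowerSeries.X j) = x' j := fun j => ev_X φ' x' hx' j
  have hψl : IsLocalHom ψ := by
    constructor
    intro F hF
    rw [MvPowerSeries.isUnit_iff_constantCoeff]
    have h1 : Ideal.span (Set.range (MvPowerSeries.X (R := D) (σ := Fin (e + 1)))) ≤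
        (maximalIdeal R').comap ψ := by
      rw [Ideal.span_le]
      rintro _ ⟨j, rfl⟩
      rw [SetLike.mem_coe, Ideal.mem_comap, hψX]
      exact hx' j
    have h2 : ψ (F - MvPowerSeries.C (MvPowerSeries.constantCoeff F)) ∈ maximalIdeal R' :=
      h1 (G.sub_C_mem F)
    apply hφ'l.map_nonunit
    have h3 : φ' (MvPowerSeries.constantCoeff F) =
        ψ (MvPowerSeries.C (MvPowerSeries.constantCoeff F)) := (ev_C φ' x' hx' _).symm
    rw [h3]
    by_contra h4
    have h5 := Ideal.add_mem _ h2 ((IsLocalRing.mem_maximalIdeal _).2 h4)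
    rw [← map_add, sub_add_cancel] at h5
    exact (IsLocalRing.mem_maximalIdeal _).1 h5 hF
  have hψfin : ψ.Finite := by
    refine finite_of_param ψ hψl (fun b => ?_) N ?_
    · obtain ⟨w, hw⟩ := hResR' b
      refine ⟨MvPowerSeries.C (i' w), ?_⟩
      have h1 : ψ (MvPowerSeries.C (i' w)) = φ' (i' w) := ev_C φ' x' hx' _
      rw [h1]
      exact hw
    · rw [← C.comap_max π hπ, ← Ideal.map_pow]
      refine (Ideal.map_mono hN).trans ?_
      rw [Ideal.map_sup, sup_le_iff]
      constructor
      · rw [Ideal.map_le_iff_le_comap, Ideal.map_le_iff_le_comap]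
        intro a ha
        rw [Ideal.mem_comap, Ideal.mem_comap]
        have h1 : π (φ a) = ψ (MvPowerSeries.C (σ a)) := (ev_C φ' x' hx' (σ a)).symm
        rw [h1]
        exact Ideal.mem_map_of_mem ψ (H.C_mem (H.map_max_le σ hσl ha))
      · rw [Ideal.map_le_iff_le_comap, Ideal.span_le]
        rintro _ ⟨j, rfl⟩
        rw [SetLike.mem_coe, Ideal.mem_comap]
        have h1 : π (x j) = ψ (MvPowerSeries.X j) := (hψX j).symm
        rw [h1]
        exact Ideal.mem_map_of_mem ψ (H.X_mem j)
  have : IsDomain (MvPowerSeries (Fin (e + 1)) D) := NoZeroDivisors.to_isDomain _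
  obtain ⟨c, hc0, q, r, h1, h2⟩ := generic_free ψ hψfin
  obtain ⟨s, m, d, hc, hδ⟩ := content c
  let a : Fin s → D := fun j => MvPowerSeries.coeff (m j) c
  choose b hb using fun j => hσ (a j)
  have hane : ∃ j, a j ≠ 0 := by
    by_contra hcon
    push Not at hcon
    apply hc0
    rw [hc]
    refine Finset.sum_eq_zero fun j _ => ?_
    have h3 : MvPowerSeries.coeff (m j) c = 0 := hcon j
    rw [h3, map_zero, zero_mul]
  have hJ : I < I ⊔ Ideal.span (Set.range b) := by
    refine lt_of_le_of_ne le_sup_left fun h => ?_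
    obtain ⟨j, hj⟩ := hane
    apply hj
    rw [← hb j]
    apply Ideal.Quotient.eq_zero_iff_mem.2
    rw [h]
    exact Ideal.mem_sup_right (Ideal.subset_span ⟨j, rfl⟩)
  obtain ⟨M0, hM0⟩ := hI _ hJ
  let rep : ResidueField W → W := Function.surjInv residue_surjective
  have hrep : ∀ κ, residue W (rep κ) = κ := Function.surjInv_eq residue_surjective
  -- the charts
  have hcharts : ∀ κ : Fin s → ResidueField W, ∃ M : ℕ, (∃ j0, κ j0 ≠ 0) →
      Bdd ((MvPowerSeries.C (σ := Fin s) (R := D)).comp i')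
        (H.φc i' ψ d (fun j => rep (κ j))) ⊥ M := by
    intro κ
    by_cases hκ : ∃ j0, κ j0 ≠ 0
    swap
    · exact ⟨0, fun h => absurd h hκ⟩
    obtain ⟨j0, hj0⟩ := hκ
    by_cases htop : Ideal.span {H.eqn i' ψ d (fun j => rep (κ j))} = ⊤
    · refine ⟨0, fun _ => ?_⟩
      intro O _ _ ω hω t ht htI
      have := hω.dom
      rw [Nat.cast_zero, nonpos_iff_eq_zero, Set.encard_eq_zero, Set.eq_empty_iff_forall_notMem]
      intro z hz
      have hsub : Subsingleton (H.Rc i' ψ d (fun j => rep (κ j))) :=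
        Ideal.Quotient.subsingleton_iff.2 htop
      have h3 : (1 : H.Rc i' ψ d (fun j => rep (κ j))) = 0 := Subsingleton.elim _ _
      have h4 := congrArg z h3
      rw [map_one, map_zero] at h4
      exact one_ne_zero h4
    have : Nontrivial (H.Rc i' ψ d (fun j => rep (κ j))) :=
      Ideal.Quotient.nontrivial_iff.2 htop
    let μ : MvPowerSeries (Fin s) R' →+* H.Rc i' ψ d (fun j => rep (κ j)) :=
      Ideal.Quotient.mk _
    have hμ : Function.Surjective μ := Ideal.Quotient.mk_surjective
    have : IsLocalRing (H.Rc i' ψ d (fun j => rep (κ j))) := IsLocalRing.of_surjective' μ hμ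
    have : IsAdicComplete (maximalIdeal (H.Rc i' ψ d (fun j => rep (κ j))))
        (H.Rc i' ψ d (fun j => rep (κ j))) := complete_of_surjective μ hμ
    have hunit : IsUnit (rep (κ j0)) := by
      by_contra h
      apply hj0
      rw [← hrep (κ j0), residue_eq_zero_iff]
      exact (IsLocalRing.mem_maximalIdeal _).2 h
    have hφcl : IsLocalHom (H.φc i' ψ d (fun j => rep (κ j))) := by
      refine H.local_comp _ _ (H.local_map _ ?_ s) (IsLocalHom.of_surjective μ hμ)
      rw [hψC]
      exact hφ'l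
    have hRes2 : Res ((H.φc i' ψ d (fun j => rep (κ j))).comp
        ((MvPowerSeries.C (σ := Fin s) (R := D)).comp i')) := by
      have h3 : (H.φc i' ψ d (fun j => rep (κ j))).comp
          ((MvPowerSeries.C (σ := Fin s) (R := D)).comp i') =
          μ.comp ((MvPowerSeries.C (σ := Fin s) (R := R')).comp (φ'.comp i')) := by
        ext w : 1
        change μ (MvPowerSeries.map _ (MvPowerSeries.C (i' w))) = μ (MvPowerSeries.C (φ' (i' w)))
        rw [MvPowerSeries.map_C, hψC]
      rw [h3]
      exact H.res_surj _ (H.res_ps _ hResR' s) μ hμ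
    obtain ⟨M, hM⟩ := ih (MvPowerSeries (Fin s) D) (H.Rc i' ψ d (fun j => rep (κ j)))
      ((MvPowerSeries.C (σ := Fin s) (R := D)).comp i') (H.φc i' ψ d (fun j => rep (κ j)))
      (H.local_comp _ _ hi'l (H.local_C s)) hφcl (H.res_ps i' hResD s) hRes2
      (H.chart_dim i' ψ hψfin d (fun j => rep (κ j)) m hδ j0 hunit)
    exact ⟨M, fun _ => hM⟩
  choose Mc hMc using hcharts
  have : Fintype (ResidueField W) := Fintype.ofFinite _
  refine ⟨max M0 (Finset.univ.sup Mc), ?_⟩
  intro O _ _ ω hω t ht htI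
  have := hω.dom
  have := hω.cpl
  by_cases hJt : I ⊔ Ideal.span (Set.range b) ≤ RingHom.ker t
  · exact (hM0 O ω hω t ht hJt).trans (by exact_mod_cast le_max_left _ _)
  let t' : D →+* O := Ideal.Quotient.lift I t (fun y hy => htI hy)
  have ht'σ : t'.comp σ = t := by
    ext y
    rfl
  have ht'i : t'.comp i' = ω := by
    rw [← ht]
    rfl
  have hne : ∃ j, t' (a j) ≠ 0 := by
    by_contra hcon
    push Not at hcon
    apply hJt
    refine sup_le htI ?_
    rw [Ideal.span_le]
    rintro _ ⟨j, rfl⟩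
    have h3 := hcon j
    rw [← hb j] at h3
    exact h3
  obtain ⟨j1, hj1⟩ := hne
  obtain ⟨j0, -, hdvd⟩ := exists_dvd hω.val (fun j => t' (a j)) Finset.univ ⟨j1, Finset.mem_univ _⟩
  have hj0 : t' (a j0) ≠ 0 := by
    intro h
    have h3 := hdvd j1 (Finset.mem_univ _)
    simp only [h, zero_dvd_iff] at h3
    exact hj1 h3
  choose u hu using fun j => hdvd j (Finset.mem_univ _)
  have hu0 : u j0 = 1 := by
    have h3 := hu j0
    exact (mul_right_eq_self₀.1 h3.symm).resolve_right hj0
  choose w hw using fun j => hω.res (u j)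
  let κ : Fin s → ResidueField W := fun j => residue W (w j)
  let v : Fin s → O := fun j => u j - ω (rep (κ j))
  have hmax : ∀ y ∈ maximalIdeal W, ω y ∈ maximalIdeal O := by
    intro y hy
    rw [IsLocalRing.mem_maximalIdeal, mem_nonunits_iff] at hy ⊢
    exact fun h => hy (hω.loc.map_nonunit _ h)
  have hv : ∀ j, v j ∈ maximalIdeal O := by
    intro j
    have h3 : v j = (u j - ω (w j)) + ω (w j - rep (κ j)) := by
      simp only [v, map_sub]
      ring
    rw [h3]
    refine Ideal.add_mem _ (hw j) (hmax _ ?_)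
    rw [← residue_eq_zero_iff, map_sub, hrep, sub_self]
  have hκ : ∃ j0, κ j0 ≠ 0 := by
    refine ⟨j0, fun h => ?_⟩
    have h3 : ω (rep (κ j0)) ∈ maximalIdeal O := by
      apply hmax
      rw [← residue_eq_zero_iff, hrep, h]
    have h4 := Ideal.add_mem _ (hv j0) h3
    have h5 : v j0 + ω (rep (κ j0)) = 1 := by
      simp only [v, sub_add_cancel, hu0]
    rw [h5] at h4
    exact (IsLocalRing.mem_maximalIdeal _).1 h4 isUnit_one
  -- the points of the chart
  have hpt : ∀ z : R →+* O, Isol φ t z → ∃ z2 : H.Rc i' ψ d (fun j => rep (κ j)) →+* O,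
      Isol (H.φc i' ψ d (fun j => rep (κ j))) (ev t' v hv) z2 ∧
      ∀ y : R, z2 (Ideal.Quotient.mk _ (MvPowerSeries.C (π y))) = z y := by
    intro z hz
    have hzI : ∀ y ∈ I.map φ, z y = 0 := by
      have h3 : I.map φ ≤ RingHom.ker z := by
        rw [Ideal.map_le_iff_le_comap]
        intro y hy
        rw [Ideal.mem_comap, RingHom.mem_ker, ← RingHom.comp_apply, hz.1]
        exact htI hy
      exact fun y hy => h3 hy
    let z' : R' →+* O := Ideal.Quotient.lift (I.map φ) z hzI
    have hz'π : z'.comp π = z := by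
      ext y
      rfl
    have hz1 : Isol (π.comp φ) t z' := by
      apply isol_quotient φ t π hπ z'
      rw [hz'π]
      exact hz
    rw [← hφσ, ← ht'σ] at hz1
    have hz2 : Isol φ' t' z' := isol_base σ hσ φ' t' z' hz1
    have hz3 : Isol (ψ.comp (MvPowerSeries.C (σ := Fin (e + 1)) (R := D))) t' z' := by
      rw [hψC]
      exact hz2
    have hz'l : IsLocalHom z' := by
      refine isLocalHom_point (φ'.comp i') ω hω.res hω.loc z' ?_
      rw [← RingHom.comp_assoc, hz2.1, ht'i]
    have hX : z' (ψ (MvPowerSeries.X 0)) ∈ maximalIdeal O := by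
      rw [hψX]
      exact H.map_max_le z' hz'l (hx' 0)
    have hzc : z' (ψ c) = 0 := isolated_zero i' e ψ c r h1 h2 ω hω t' ht'i z' hX hz3
    have hψCl : IsLocalHom (ψ.comp (MvPowerSeries.C (σ := Fin (e + 1)) (R := D))) := by
      rw [hψC]
      exact hφ'l
    obtain ⟨z2, hz4, hz5⟩ := H.chart_point i' hi'l ψ hψCl d (fun j => rep (κ j)) c a hc ω hω t'
      ht'i z' hz3 hzc j0 hj0 u v hu (fun j => by simp only [v]; ring) hv
    exact ⟨z2, hz4, fun y => hz5 (π y)⟩
  rcases Set.eq_empty_or_nonempty {z : R →+* O | Isol φ t z} with hemp | ⟨z0, hz0⟩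
  · rw [hemp, Set.encard_empty]
    exact bot_le
  have : Nonempty (H.Rc i' ψ d (fun j => rep (κ j)) →+* O) := ⟨(hpt z0 hz0).choose⟩
  choose! f hf1 hf2 using hpt
  have hle : {z : R →+* O | Isol φ t z}.encard ≤
      {z2 : H.Rc i' ψ d (fun j => rep (κ j)) →+* O |
        Isol (H.φc i' ψ d (fun j => rep (κ j))) (ev t' v hv) z2}.encard := by
    refine Set.encard_le_encard_of_injOn (f := f) (fun z hz => hf1 z hz) ?_
    intro z hz z1 hz1 h
    ext y
    rw [← hf2 z hz y, ← hf2 z1 hz1 y, h]
  refine hle.trans ?_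
  have hcomp : (ev t' v hv).comp ((MvPowerSeries.C (σ := Fin s) (R := D)).comp i') = ω := by
    ext y
    rw [RingHom.comp_apply, RingHom.comp_apply, ev_C, ← ht'i]
    rfl
  refine (hMc κ hκ O ω hω (ev t' v hv) hcomp bot_le).trans ?_
  exact_mod_cast (Finset.le_sup (f := Mc) (Finset.mem_univ κ)).trans (le_max_right _ _)

theorem claim_all (W : Type) [CommRing W] [IsLocalRing W] [IsNoetherianRing W]
    [Finite (ResidueField W)] (e : ℕ) : Claim W e := by
  induction e with
  | zero => exact claim_zero W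
  | succ e ih => exact claim_succ W e ih

end M

/-- Uniform finiteness of isolated points, uniformly in the test ring. -/
theorem uniformFiniteness : UniformFiniteness := by
  intro W T R _ _ _ _ _ _ _ _ _ _ _ _ _ i φ hi hφ hT hR
  have hJ := M.map_ne_top φ hφ
  have : Nontrivial (R ⧸ (maximalIdeal T).map φ) := Ideal.Quotient.nontrivial_iff.2 hJ
  have : IsLocalRing (R ⧸ (maximalIdeal T).map φ) :=
    IsLocalRing.of_surjective' (Ideal.Quotient.mk _) Ideal.Quotient.mk_surjective
  exact M.claim_all W _ T R i φ hi hφ hT hR (by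
    exact_mod_cast ringKrullDim_le_spanFinrank_maximalIdeal (R ⧸ (maximalIdeal T).map φ))

end Pool.Agent.UF
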